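import Pool.Agent.K6.H2.HS.CertAux

namespace Pool.Agent.K6.H2.HS

/-! ### m = 13 -/

def d13 : ZMod 13 → ℤ := ![0, 1, 0, -1, -1, 2, 0, 2, 0, 2, -2, 0, -1]

def a13 : Equiv.Perm (ZMod 13) where
  toFun := ![0, 9, 5, 4, 2, 11, 8, 3, 6, 12, 1, 10, 7]
  invFun := ![0, 10, 4, 7, 3, 2, 8, 12, 6, 1, 11, 5, 9]
  left_inv x := by revert x; decide +kernel
  right_inv x := by revert x; decide +kernel

def W13 : Fin 1 → ZMod 3 → ZMod 13 := ![![0, 1, 12]]

def z13 : Fin 0 → ZMod 13 := ![]

theorem cert13 : Cert 13 1 0 d13 a13 W13 z13 where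
  s := ⟨1, by decide +kernel⟩
  bd := by decide +kernel
  zs := by decide +kernel
  un := un_of (by decide +kernel)
  uz := uz_of (by decide +kernel)
  c0 := by decide +kernel
  c1 := by decide +kernel
  c1W := by decide +kernel
  c1z := by decide +kernel
  c2 := by decide +kernel
  c2W := by decide +kernel
  c2z := by decide +kernel
  inj1 := by decide +kernel
  inj2 := by decide +kernel

end Pool.Agent.K6.H2.HS
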