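import Pool.Agent.K6.H2.HS.CertAux

namespace Pool.Agent.K6.H2.HS

/-! ### m = 17 -/

def d17 : ZMod 17 → ℤ := ![2, -2, 2, -2, 0, -2, 0, 1, -1, 2, -1, 2, -1, 2, -1, 2, -2]

def a17 : Equiv.Perm (ZMod 17) where
  toFun := ![0, 10, 1, 6, 3, 12, 8, 15, 2, 4, 11, 14, 16, 9, 7, 5, 13]
  invFun := ![0, 2, 8, 4, 9, 15, 3, 14, 6, 13, 1, 10, 5, 16, 11, 7, 12]
  left_inv x := by revert x; decide +kernel
  right_inv x := by revert x; decide +kernel

def W17 : Fin 1 → ZMod 3 → ZMod 17 := ![![0, 1, 16]]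

def z17 : Fin 1 → ZMod 17 := ![3]

theorem cert17 : Cert 17 1 1 d17 a17 W17 z17 where
  s := ⟨0, by decide +kernel⟩
  bd := by decide +kernel
  zs := by decide +kernel
  un := un_of (by decide +kernel)
  uz := uz_of (by decide +kernel)
  c0 := by decide +kernel
  c1 := by decide +kernel
  c1W := by decide +kernel
  c1z := by decide +kernel
  c2 := by decide +kernel
  c2W := by decide +kernel
  c2z := by decide +kernel
  inj1 := by decide +kernel
  inj2 := by decide +kernel

end Pool.Agent.K6.H2.HS
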