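import Pool.Agent.K6.H2.HS.CertAux

namespace Pool.Agent.K6.H2.HS

/-! ### m = 25 -/

def d25 : ZMod 25 → ℤ := ![1, 0, -1, 0, 2, 0, -1, 0, 2, 0, -2, 0, -1, 0, -1, 0, -2, 0, -2, 0, 1, 0, 2, 0, 1]

def a25 : Equiv.Perm (ZMod 25) where
  toFun := ![0, 19, 6, 9, 16, 1, 24, 12, 13, 8, 17, 15, 10, 22, 3, 5, 20, 11, 14, 23, 2, 7, 18, 21, 4]
  invFun := ![0, 5, 20, 14, 24, 15, 2, 21, 9, 3, 12, 17, 7, 8, 18, 11, 4, 10, 22, 1, 16, 23, 13, 19, 6]
  left_inv x := by revert x; decide +kernel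
  right_inv x := by revert x; decide +kernel

def W25 : Fin 2 → ZMod 3 → ZMod 25 := ![![0, 1, 24], ![2, 3, 20]]

def z25 : Fin 0 → ZMod 25 := ![]

theorem cert25 : Cert 25 2 0 d25 a25 W25 z25 where
  s := ⟨0, by decide +kernel⟩
  bd := by decide +kernel
  zs := by decide +kernel
  un := un_of (by decide +kernel)
  uz := uz_of (by decide +kernel)
  c0 := by decide +kernel
  c1 := by decide +kernel
  c1W := by decide +kernel
  c1z := by decide +kernel
  c2 := by decide +kernel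
  c2W := by decide +kernel
  c2z := by decide +kernel
  inj1 := by decide +kernel
  inj2 := by decide +kernel

end Pool.Agent.K6.H2.HS
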