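import Pool.Agent.K6.H2.HS.CertAux

namespace Pool.Agent.K6.H2.HS

/-! ### m = 29 -/

def d29 : ZMod 29 → ℤ := ![1, 0, -1, 0, -1, 0, 2, 0, -1, 0, 2, 0, 1, 0, -2, 0, -2, 0, 1, 0, -2, 0, -1, 0, 2, 0, -2, 0, 1]

def a29 : Equiv.Perm (ZMod 29) where
  toFun := ![0, 5, 24, 26, 3, 7, 22, 9, 20, 23, 6, 18, 11, 2, 27, 16, 13, 10, 19, 28, 1, 8, 21, 14, 15, 4, 25, 12, 17]
  invFun := ![0, 20, 13, 4, 25, 1, 10, 5, 21, 7, 17, 12, 27, 16, 23, 24, 15, 28, 11, 18, 8, 22, 6, 9, 2, 26, 3, 14, 19]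
  left_inv x := by revert x; decide +kernel
  right_inv x := by revert x; decide +kernel

def W29 : Fin 2 → ZMod 3 → ZMod 29 := ![![0, 1, 28], ![4, 3, 22]]

def z29 : Fin 1 → ZMod 29 := ![2]

theorem cert29 : Cert 29 2 1 d29 a29 W29 z29 where
  s := ⟨1, by decide +kernel⟩
  bd := by decide +kernel
  zs := by decide +kernel
  un := un_of (by decide +kernel)
  uz := uz_of (by decide +kernel)
  c0 := by decide +kernel
  c1 := by decide +kernel
  c1W := by decide +kernel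
  c1z := by decide +kernel
  c2 := by decide +kernel
  c2W := by decide +kernel
  c2z := by decide +kernel
  inj1 := by decide +kernel
  inj2 := by decide +kernel

end Pool.Agent.K6.H2.HS
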