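import Pool.Agent.K6.H2.HS.CertAux

namespace Pool.Agent.K6.H2.HS

/-! ### m = 37 -/

def d37 : ZMod 37 → ℤ := ![1, 0, 2, 0, 2, 0, 1, 0, 1, 0, 2, 0, 2, 0, 1, 0, 1, 0, -2, 0, 2, 0, -1, 0, -1, 0, -2, 0, -1, 0, -1, 0, -2, 0, -2, 0, 1]

def a37 : Equiv.Perm (ZMod 37) where
  toFun := ![0, 7, 30, 11, 26, 20, 17, 2, 35, 8, 29, 24, 13, 10, 27, 1, 36, 25, 12, 32, 5, 3, 34, 19, 18, 16, 21, 31, 6, 23, 14, 9, 28, 22, 15, 33, 4]
  invFun := ![0, 15, 7, 21, 36, 20, 28, 1, 9, 31, 13, 3, 18, 12, 30, 34, 25, 6, 24, 23, 5, 26, 33, 29, 11, 17, 4, 14, 32, 10, 2, 27, 19, 35, 22, 8, 16]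
  left_inv x := by revert x; decide +kernel
  right_inv x := by revert x; decide +kernel

def W37 : Fin 3 → ZMod 3 → ZMod 37 := ![![0, 1, 36], ![17, 32, 25], ![35, 27, 12]]

def z37 : Fin 0 → ZMod 37 := ![]

theorem cert37 : Cert 37 3 0 d37 a37 W37 z37 where
  s := ⟨2, by decide +kernel⟩
  bd := by decide +kernel
  zs := by decide +kernel
  un := un_of (by decide +kernel)
  uz := uz_of (by decide +kernel)
  c0 := by decide +kernel
  c1 := by decide +kernel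
  c1W := by decide +kernel
  c1z := by decide +kernel
  c2 := by decide +kernel
  c2W := by decide +kernel
  c2z := by decide +kernel
  inj1 := by decide +kernel
  inj2 := by decide +kernel

end Pool.Agent.K6.H2.HS
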