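import Pool.Agent.K6.H2.HS.CertAux

namespace Pool.Agent.K6.H2.HS

/-! ### m = 41 -/

def d41 : ZMod 41 → ℤ := ![1, 0, -1, 0, -1, 0, -1, 0, 1, 0, -1, 0, -2, 0, -2, 0, 2, 0, 2, 0, -1, 0, -2, 0, 2, 0, 2, 0, 2, 0, -2, 0, -2, 0, 1, 0, 1, 0, 1, 0, 1]

def a41 : Equiv.Perm (ZMod 41) where
  toFun := ![0, 9, 32, 2, 39, 37, 4, 20, 21, 35, 6, 31, 10, 13, 28, 19, 22, 30, 11, 1, 40, 29, 12, 14, 27, 7, 34, 3, 38, 16, 25, 33, 8, 17, 24, 5, 36, 26, 15, 18, 23]
  invFun := ![0, 19, 3, 27, 6, 35, 10, 25, 32, 1, 12, 18, 22, 13, 23, 38, 29, 33, 39, 15, 7, 8, 16, 40, 34, 30, 37, 24, 14, 21, 17, 11, 2, 31, 26, 9, 36, 5, 28, 4, 20]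
  left_inv x := by revert x; decide +kernel
  right_inv x := by revert x; decide +kernel

def W41 : Fin 3 → ZMod 3 → ZMod 41 := ![![0, 1, 40], ![39, 38, 5], ![36, 27, 19]]

def z41 : Fin 1 → ZMod 41 := ![10]

theorem cert41 : Cert 41 3 1 d41 a41 W41 z41 where
  s := ⟨0, by decide +kernel⟩
  bd := by decide +kernel
  zs := by decide +kernel
  un := un_of (by decide +kernel)
  uz := uz_of (by decide +kernel)
  c0 := by decide +kernel
  c1 := by decide +kernel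
  c1W := by decide +kernel
  c1z := by decide +kernel
  c2 := by decide +kernel
  c2W := by decide +kernel
  c2z := by decide +kernel
  inj1 := by decide +kernel
  inj2 := by decide +kernel

end Pool.Agent.K6.H2.HS
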