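import Pool.Agent.K6.H2.HS.CertAux

namespace Pool.Agent.K6.H2.HS

/-! ### m = 53 -/

def d53 : ZMod 53 → ℤ := ![1, 0, -1, 0, 1, 0, -2, 0, -2, 0, 1, 0, 1, 0, -2, 0, -2, 0, -1, 0, -1, 0, 1, 0, 2, 0, 1, 0, 2, 0, -2, 0, -2, 0, 2, 0, 1, 0, -2, 0, 1, 0, 2, 0, 1, 0, -2, 0, -2, 0, 1, 0, 1]

def a53 : Equiv.Perm (ZMod 53) where
  toFun := ![0, 25, 28, 34, 19, 17, 36, 39, 14, 21, 32, 11, 42, 38, 15, 4, 49, 44, 9, 29, 24, 48, 5, 26, 27, 51, 2, 6, 47, 43, 10, 7, 46, 37, 16, 45, 8, 31, 22, 33, 20, 40, 13, 1, 52, 12, 41, 50, 3, 30, 23, 18, 35]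
  invFun := ![0, 43, 26, 48, 15, 22, 27, 31, 36, 18, 30, 11, 45, 42, 8, 14, 34, 5, 51, 4, 40, 9, 38, 50, 20, 1, 23, 24, 2, 19, 49, 37, 10, 39, 3, 52, 6, 33, 13, 7, 41, 46, 12, 29, 17, 35, 32, 28, 21, 16, 47, 25, 44]
  left_inv x := by revert x; decide +kernel
  right_inv x := by revert x; decide +kernel

def W53 : Fin 1 → ZMod 3 → ZMod 53 := ![![0, 1, 52]]

def z53 : Fin 10 → ZMod 53 := ![3, 50, 16, 37, 2, 5, 6, 40, 30, 24]

theorem cert53 : Cert 53 1 10 d53 a53 W53 z53 where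
  s := ⟨1, by decide +kernel⟩
  bd := by decide +kernel
  zs := by decide +kernel
  un := un_of (by decide +kernel)
  uz := uz_of (by decide +kernel)
  c0 := by decide +kernel
  c1 := by decide +kernel
  c1W := by decide +kernel
  c1z := by decide +kernel
  c2 := by decide +kernel
  c2W := by decide +kernel
  c2z := by decide +kernel
  inj1 := by decide +kernel
  inj2 := by decide +kernel

end Pool.Agent.K6.H2.HS
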