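import Pool.Agent.K6.H2.HS.CertAux

namespace Pool.Agent.K6.H2.HS

/-! ### m = 61 -/

def d61 : ZMod 61 → ℤ := ![1, 0, -1, 0, -2, 0, 1, 0, 2, 0, -2, 0, -2, 0, -1, 0, 1, 0, 2, 0, 1, 0, -1, 0, -2, 0, 2, 0, -2, 0, 2, 0, 2, 0, 2, 0, -1, 0, -1, 0, -1, 0, 1, 0, -1, 0, 1, 0, -2, 0, -2, 0, -1, 0, -2, 0, 2, 0, 1, 0, 1]

def a61 : Equiv.Perm (ZMod 61) where
  toFun := ![0, 44, 17, 59, 2, 49, 12, 47, 14, 55, 6, 40, 21, 9, 52, 27, 34, 43, 18, 7, 54, 29, 32, 5, 56, 1, 60, 33, 28, 51, 10, 3, 58, 8, 53, 25, 36, 39, 22, 16, 45, 11, 50, 41, 20, 30, 31, 38, 23, 35, 26, 19, 42, 48, 13, 46, 15, 24, 37, 57, 4]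
  invFun := ![0, 25, 4, 31, 60, 23, 10, 19, 33, 13, 30, 41, 6, 54, 8, 56, 39, 2, 18, 51, 44, 12, 38, 48, 57, 35, 50, 15, 28, 21, 45, 46, 22, 27, 16, 49, 36, 58, 47, 37, 11, 43, 52, 17, 1, 40, 55, 7, 53, 5, 42, 29, 14, 34, 20, 9, 24, 59, 32, 3, 26]
  left_inv x := by revert x; decide +kernel
  right_inv x := by revert x; decide +kernel

def W61 : Fin 1 → ZMod 3 → ZMod 61 := ![![0, 1, 60]]

def z61 : Fin 12 → ZMod 61 := ![12, 49, 13, 48, 21, 40, 3, 54, 10, 42, 41, 26]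

theorem cert61 : Cert 61 1 12 d61 a61 W61 z61 where
  s := ⟨1, by decide +kernel⟩
  bd := by decide +kernel
  zs := by decide +kernel
  un := un_of (by decide +kernel)
  uz := uz_of (by decide +kernel)
  c0 := by decide +kernel
  c1 := by decide +kernel
  c1W := by decide +kernel
  c1z := by decide +kernel
  c2 := by decide +kernel
  c2W := by decide +kernel
  c2z := by decide +kernel
  inj1 := by decide +kernel
  inj2 := by decide +kernel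

end Pool.Agent.K6.H2.HS
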