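import Pool.Agent.K6.H2.HS.CertAux

namespace Pool.Agent.K6.H2.HS

/-! ### m = 73 -/

def d73 : ZMod 73 → ℤ := ![1, 0, 1, 0, -2, 0, -1, 0, 1, 0, 2, 0, 1, 0, 2, 0, -1, 0, -1, 0, -1, 0, 1, 0, -2, 0, 1, 0, 2, 0, 1, 0, 2, 0, 2, 0, -1, 0, 2, 0, -2, 0, -2, 0, -2, 0, -1, 0, 1, 0, -2, 0, 2, 0, -2, 0, -2, 0, 2, 0, -2, 0, -2, 0, -1, 0, 1, 0, -1, 0, 1, 0, 1]

def a73 : Equiv.Perm (ZMod 73) where
  toFun := ![0, 43, 30, 6, 67, 50, 23, 39, 34, 68, 5, 62, 11, 66, 7, 53, 20, 55, 18, 64, 9, 36, 37, 15, 58, 40, 33, 57, 16, 72, 1, 59, 14, 52, 21, 44, 29, 3, 70, 65, 8, 31, 42, 63, 10, 32, 41, 22, 51, 25, 48, 45, 28, 49, 24, 2, 71, 26, 47, 17, 56, 19, 54, 38, 35, 13, 60, 46, 27, 4, 69, 12, 61]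
  invFun := ![0, 30, 55, 37, 69, 10, 3, 14, 40, 20, 44, 12, 71, 65, 32, 23, 28, 59, 18, 61, 16, 34, 47, 6, 54, 49, 57, 68, 52, 36, 2, 41, 45, 26, 8, 64, 21, 22, 63, 7, 25, 46, 42, 1, 35, 51, 67, 58, 50, 53, 5, 48, 33, 15, 62, 17, 60, 27, 24, 31, 66, 72, 11, 43, 19, 39, 13, 4, 9, 70, 38, 56, 29]
  left_inv x := by revert x; decide +kernel
  right_inv x := by revert x; decide +kernel

def W73 : Fin 1 → ZMod 3 → ZMod 73 := ![![0, 1, 72]]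

def z73 : Fin 15 → ZMod 73 := ![5, 68, 6, 67, 7, 66, 20, 53, 14, 15, 18, 54, 50, 39, 35]

theorem cert73 : Cert 73 1 15 d73 a73 W73 z73 where
  s := ⟨0, by decide +kernel⟩
  bd := by decide +kernel
  zs := by decide +kernel
  un := un_of (by decide +kernel)
  uz := uz_of (by decide +kernel)
  c0 := by decide +kernel
  c1 := by decide +kernel
  c1W := by decide +kernel
  c1z := by decide +kernel
  c2 := by decide +kernel
  c2W := by decide +kernel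
  c2z := by decide +kernel
  inj1 := by decide +kernel
  inj2 := by decide +kernel

end Pool.Agent.K6.H2.HS
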