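import Pool.Agent.K6.H2.HS.CertAux

namespace Pool.Agent.K6.H2.HS

/-! ### m = 89 -/

def d89 : ZMod 89 → ℤ := ![1, 0, 1, 0, -2, 0, -2, 0, 2, 0, -2, 0, 2, 0, -1, 0, -2, 0, 2, 0, 2, 0, -1, 0, 1, 0, -1, 0, 2, 0, 2, 0, -1, 0, -2, 0, -1, 0, -1, 0, -2, 0, 1, 0, -2, 0, -1, 0, 1, 0, -1, 0, 1, 0, 1, 0, 1, 0, -2, 0, -2, 0, -1, 0, -1, 0, -1, 0, 2, 0, 2, 0, 2, 0, -1, 0, -1, 0, 1, 0, -2, 0, 2, 0, 2, 0, 2, 0, 1]

def a89 : Equiv.Perm (ZMod 89) where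
  toFun := ![0, 54, 35, 12, 77, 34, 55, 25, 64, 70, 19, 73, 16, 47, 42, 30, 59, 10, 79, 65, 24, 82, 7, 15, 74, 41, 48, 68, 21, 31, 58, 39, 50, 18, 71, 3, 86, 22, 67, 33, 56, 37, 52, 80, 9, 44, 45, 8, 81, 23, 66, 72, 17, 69, 20, 53, 36, 49, 40, 26, 63, 1, 88, 83, 6, 38, 51, 28, 61, 85, 4, 43, 46, 5, 84, 76, 13, 78, 11, 87, 2, 14, 75, 32, 57, 27, 62, 29, 60]
  invFun := ![0, 61, 80, 35, 70, 73, 64, 22, 47, 44, 17, 78, 3, 76, 81, 23, 12, 52, 33, 10, 54, 28, 37, 49, 20, 7, 59, 85, 67, 87, 15, 29, 83, 39, 5, 2, 56, 41, 65, 31, 58, 25, 14, 71, 45, 46, 72, 13, 26, 57, 32, 66, 42, 55, 1, 6, 40, 84, 30, 16, 88, 68, 86, 60, 8, 19, 50, 38, 27, 53, 9, 34, 51, 11, 24, 82, 75, 4, 77, 18, 43, 48, 21, 63, 74, 69, 36, 79, 62]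
  left_inv x := by revert x; decide +kernel
  right_inv x := by revert x; decide +kernel

def W89 : Fin 1 → ZMod 3 → ZMod 89 := ![![0, 1, 88]]

def z89 : Fin 19 → ZMod 89 := ![14, 75, 30, 59, 38, 51, 39, 50, 41, 48, 84, 6, 77, 20, 65, 25, 61, 58, 55]

theorem cert89 : Cert 89 1 19 d89 a89 W89 z89 where
  s := ⟨0, by decide +kernel⟩
  bd := by decide +kernel
  zs := by decide +kernel
  un := un_of (by decide +kernel)
  uz := uz_of (by decide +kernel)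
  c0 := by decide +kernel
  c1 := by decide +kernel
  c1W := by decide +kernel
  c1z := by decide +kernel
  c2 := by decide +kernel
  c2W := by decide +kernel
  c2z := by decide +kernel
  inj1 := by decide +kernel
  inj2 := by decide +kernel

end Pool.Agent.K6.H2.HS
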