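import Pool.Agent.K6.H2.HS.Stm

namespace Pool.Agent.K6.H2.HS

instance decEU {α : Type} [Fintype α] [DecidableEq α] (p : α → Prop) [DecidablePred p] :
    Decidable (∃! x, p x) :=
  decidable_of_iff (∃ x, p x ∧ ∀ y, p y → y = x) Iff.rfl

theorem isUnit_of {m : ℕ} [NeZero m] {x : ZMod m} (h : ∃ y, x * y = 1) : IsUnit x := by
  obtain ⟨y, hy⟩ := h
  exact IsUnit.of_mul_eq_one y hy

theorem un_of {m r : ℕ} [NeZero m] {W : Fin r → ZMod 3 → ZMod m}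
    (h : ∀ k j, (∃ y, (2 * W k j + W k (j + 1)) * y = 1) ∧
      (∃ y, (3 * W k j + W k (j + 1)) * y = 1) ∧ (∃ y, (3 * W k j + 2 * W k (j + 1)) * y = 1)) :
    ∀ k j, IsUnit (2 * W k j + W k (j + 1)) ∧ IsUnit (3 * W k j + W k (j + 1)) ∧
      IsUnit (3 * W k j + 2 * W k (j + 1)) := fun k j =>
  ⟨isUnit_of (h k j).1, isUnit_of (h k j).2.1, isUnit_of (h k j).2.2⟩

theorem uz_of {m r : ℕ} [NeZero m] {z : Fin r → ZMod m} (h : ∀ k, ∃ y, z k * y = 1) :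
    ∀ k, IsUnit (z k) := fun k => isUnit_of (h k)

end Pool.Agent.K6.H2.HS
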