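import Pool.Agent.K6.H2.HS.Stm

set_option autoImplicit false

namespace Pool.Agent.K6.H2.HS.BLOW

open Pool.Agent.K6.H2.HS

theorem unit_sub {m a b : ℕ} (hm : Nat.Coprime m 6) (ha : a ≤ 4) (hb : b ≤ 4) (hab : a ≠ b) :
    IsUnit ((a : ZMod m) - (b : ZMod m)) := by
  have h6 : IsCoprime (m : ℤ) (2 * 3) := by
    have := Nat.isCoprime_iff_coprime.2 hm
    exact_mod_cast this
  have h2 : IsCoprime (m : ℤ) 2 := h6.of_mul_right_left
  have h3 : IsCoprime (m : ℤ) 3 := h6.of_mul_right_right
  have h4 : IsCoprime (m : ℤ) 4 := by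
    have := h2.mul_right h2
    norm_num at this
    exact this
  have hodd : Odd m := by
    have h := h2
    norm_num at h
    exact h
  have key : IsCoprime (m : ℤ) ((a : ℤ) - b) := by
    interval_cases a <;> interval_cases b <;> first
      | exact absurd rfl hab
      | (norm_num
         first
          | done
          | exact hodd
          | exact h2
          | exact h3
          | exact h4
          | exact isCoprime_one_right
          | exact isCoprime_one_right.neg_right
          | exact h2.neg_right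
          | exact h3.neg_right
          | exact h4.neg_right)
  have h := (ZMod.coe_int_isUnit_iff_isCoprime _ m).2 key
  push_cast at h
  exact h

theorem nb_symm {V : Type} (σ : Equiv.Perm V) (x y : V) : Nb σ x y ↔ Nb σ y x := by
  unfold Nb
  tauto

theorem exu {m : ℕ} (a b u : ZMod m) (hu : IsUnit u) : ∃! c : ZMod m, a + c * u = b := by
  obtain ⟨u, rfl⟩ := hu
  refine ⟨(b - a) * ((u⁻¹ : (ZMod m)ˣ) : ZMod m), ?_, ?_⟩
  · show a + (b - a) * ((u⁻¹ : (ZMod m)ˣ) : ZMod m) * (u : ZMod m) = b
    rw [mul_assoc, Units.inv_mul]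
    ring
  · intro c hc
    have hc' : a + c * (u : ZMod m) = b := hc
    rw [← hc', add_sub_cancel_left, mul_assoc, Units.mul_inv, mul_one]

end Pool.Agent.K6.H2.HS.BLOW

namespace Pool.Agent.K6.H2.HS

open BLOW

/-- PIECE BLOW (helper48). -/
theorem P_BLOW (hs : S_SKEW) (hc : S_CYC) (hl : S_COVL) (hC : S_COL) : S_BLOW := by
  intro m n V _ σ hn hm hm6 hV hσ
  have : NeZero n := ⟨by omega⟩
  have : NeZero m := ⟨by omega⟩
  obtain ⟨e, he⟩ := hc n V σ (by omega) hV hσ
  obtain ⟨C, hC4, hCne⟩ := hC n hn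
  have hes : ∀ x, e.symm (σ x) = e.symm x + 1 := by
    intro x
    rw [Equiv.symm_apply_eq, he, Equiv.apply_symm_apply]
  set gi : ZMod m → ZMod n → ZMod m := fun c i =>
    (if i = -1 then 1 else 0) + c * ((C (i + 1) : ZMod m) - C i) with hgi
  set g : ZMod m → V → ZMod m := fun c x => gi c (e.symm x) with hg
  have htot : ∀ c, ∑ x, g c x = 1 := by
    intro c
    have h1 : ∑ x, g c x = ∑ i, gi c i := Equiv.sum_comp e.symm (gi c)
    rw [h1, hgi]
    simp only
    rw [Finset.sum_add_distrib, ← Finset.mul_sum, Finset.sum_sub_distrib]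
    have h2 : ∑ i : ZMod n, (C (i + 1) : ZMod m) = ∑ i : ZMod n, (C i : ZMod m) :=
      Equiv.sum_comp (Equiv.addRight (1 : ZMod n)) (fun i => (C i : ZMod m))
    rw [h2, sub_self, mul_zero, add_zero]
    simp
  have hcov := fun c => hl m n V σ (g c) hn hV hσ
  have one : ∀ (x : V) (b b' : ZMod m), ∃! c, Nb (skew σ (g c)) (x, b) (σ x, b') := by
    intro x b b'
    have h := exu (if e.symm x = -1 then (1 : ZMod m) else 0) (b' - b)
      ((C (e.symm x + 1) : ZMod m) - C (e.symm x))
      (unit_sub hm6 (hC4 _) (hC4 _) (hCne _).1.symm)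
    refine (existsUnique_congr fun c => ?_).2 h
    rw [(hcov c).2.1 x b b']
  have two : ∀ (x : V) (b b' : ZMod m), ∃! c, Nb (skew σ (g c)) (x, b) (σ (σ x), b') := by
    intro x b b'
    have h := exu ((if e.symm x = -1 then (1 : ZMod m) else 0) +
      (if e.symm x + 1 = -1 then (1 : ZMod m) else 0)) (b' - b)
      ((C (e.symm x + 2) : ZMod m) - C (e.symm x))
      (unit_sub hm6 (hC4 _) (hC4 _) (hCne _).2.symm)
    refine (existsUnique_congr fun c => ?_).2 h
    rw [(hcov c).2.2.1 x b b']
    have h2 : e.symm x + 1 + 1 = e.symm x + 2 := by ring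
    have h3 : g c x + g c (σ x) = ((if e.symm x = -1 then (1 : ZMod m) else 0) +
      (if e.symm x + 1 = -1 then (1 : ZMod m) else 0)) +
      c * ((C (e.symm x + 2) : ZMod m) - C (e.symm x)) := by
      simp only [hg, hgi, hes, h2]
      ring
    rw [h3]
  refine ⟨fun c => skew σ (g c), fun c => hs m V σ (g c) hm hσ (by rw [htot c]; exact isUnit_one), ?_⟩
  rintro ⟨x, b⟩ ⟨y, b'⟩
  refine ⟨?_, fun h c => (hcov c).2.2.2 x y b b' h⟩
  rintro (h | h | h | h)
  · obtain rfl : y = σ x := h
    exact one x b b'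
  · obtain rfl : y = σ (σ x) := h
    exact two x b b'
  · obtain rfl : x = σ y := h
    exact (existsUnique_congr fun c => nb_symm _ _ _).2 (one y b' b)
  · obtain rfl : x = σ (σ y) := h
    exact (existsUnique_congr fun c => nb_symm _ _ _).2 (two y b' b)

end Pool.Agent.K6.H2.HS
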