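import Pool.Agent.K6.H2.HS.Stm

/-!
# From permutations to graphs (seat helper50)
-/

set_option autoImplicit false

namespace Pool.Agent.K6.H2.HS.BWD

lemma nb_symm {V : Type} {σ : Equiv.Perm V} {x y : V} (h : Nb σ x y) : Nb σ y x := by
  rcases h with h | h | h | h
  · exact Or.inr (Or.inr (Or.inl h))
  · exact Or.inr (Or.inr (Or.inr h))
  · exact Or.inl h
  · exact Or.inr (Or.inl h)

lemma nb_iff {n : ℕ} {V : Type} {σ : Equiv.Perm V} {e : ZMod n ≃ V} (he : ∀ t, e (t + 1) = σ (e t))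
    (s t : ZMod n) : Nb σ (e s) (e t) ↔ (s - t = 1 ∨ s - t = -1 ∨ s - t = 2 ∨ s - t = -2) := by
  unfold Nb
  rw [← he, ← he, ← he, ← he, e.injective.eq_iff, e.injective.eq_iff, e.injective.eq_iff,
    e.injective.eq_iff]
  have h1 : t = s + 1 ↔ s - t = -1 := by
    constructor
    · rintro rfl; ring
    · intro h; linear_combination -h
  have h2 : t = s + 1 + 1 ↔ s - t = -2 := by
    constructor
    · rintro rfl; ring
    · intro h; linear_combination -h
  have h3 : s = t + 1 ↔ s - t = 1 := by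
    constructor
    · rintro rfl; ring
    · intro h; linear_combination h
  have h4 : s = t + 1 + 1 ↔ s - t = 2 := by
    constructor
    · rintro rfl; ring
    · intro h; linear_combination h
  rw [h1, h2, h3, h4]
  tauto

theorem bwd (hC : S_CYC) : S_BWD := by
  intro n V _ hn hV hD
  classical
  obtain ⟨I, _, σ, hc, hu⟩ := hD
  have f : V ≃ Fin n := Fintype.equivFinOfCardEq hV
  let g : I ≃ Fin (Nat.card I) := Finite.equivFin I
  refine ⟨Nat.card I, fun j =>
    { Adj := fun x y => x ≠ y ∧ Nb (σ (g.symm j)) (f.symm x) (f.symm y)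
      symm := ⟨fun x y h => ⟨h.1.symm, nb_symm h.2⟩⟩
      loopless := ⟨fun x h => h.1 rfl⟩ }, fun j => ?_, fun x y hxy => ?_⟩
  · obtain ⟨e, he⟩ := hC n V (σ (g.symm j)) (by omega) hV (hc _)
    refine ⟨⟨f.symm.trans e.symm, ?_⟩⟩
    intro x y
    show (e.symm (f.symm x) ≠ e.symm (f.symm y) ∧ _) ↔ (x ≠ y ∧ Nb (σ (g.symm j)) (f.symm x) (f.symm y))
    have h1 := nb_iff he (e.symm (f.symm x)) (e.symm (f.symm y))
    rw [Equiv.apply_symm_apply, Equiv.apply_symm_apply] at h1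
    rw [h1]
    have h2 : e.symm (f.symm x) ≠ e.symm (f.symm y) ↔ x ≠ y := by
      rw [Ne, e.symm.injective.eq_iff, f.symm.injective.eq_iff]
    rw [h2]
    rfl
  · obtain ⟨i, hi, hi'⟩ := hu (f.symm x) (f.symm y) (fun h => hxy (f.symm.injective h))
    refine ⟨g i, ⟨hxy, by rw [Equiv.symm_apply_apply]; exact hi⟩, ?_⟩
    rintro j ⟨_, hj⟩
    rw [← hi' _ hj, Equiv.apply_symm_apply]

end Pool.Agent.K6.H2.HS.BWD

namespace Pool.Agent.K6.H2.HS

theorem P_BWD (h : S_CYC) : S_BWD := BWD.bwd h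

end Pool.Agent.K6.H2.HS
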