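import Pool.Agent.K6.H2.HS.Stm

/-!
# Piece COL: a proper colouring of the square of a cycle with at most five colours
-/

set_option autoImplicit false

namespace Pool.Agent.K6.H2.HS

namespace COL

/-- the colour of the position `v` -/
def c (n v : ℕ) : ℕ :=
  if n % 3 = 1 ∧ v = n - 1 then 3 else if n % 3 = 2 ∧ v = n - 2 then 3
  else if n % 3 = 2 ∧ v = n - 1 then 4 else v % 3

theorem c_le (n v : ℕ) : c n v ≤ 4 := by
  unfold c
  split_ifs <;> omega

theorem c_ne (n v : ℕ) (hn : 5 ≤ n) (hv : v < n) :
    c n v ≠ c n ((v + 1) % n) ∧ c n v ≠ c n ((v + 2) % n) := by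
  rcases lt_or_ge (v + 2) n with h | h
  · rw [Nat.mod_eq_of_lt h, Nat.mod_eq_of_lt (by omega : v + 1 < n)]
    unfold c
    constructor <;> split_ifs <;> omega
  · rcases eq_or_lt_of_le h with h2 | h2
    · subst h2
      rw [Nat.mod_self, Nat.mod_eq_of_lt (by omega : v + 1 < v + 2)]
      unfold c
      constructor <;> split_ifs <;> omega
    · have h3 : n = v + 1 := by omega
      subst h3
      have h4 : (v + 2) % (v + 1) = 1 := by
        rw [show v + 2 = (v + 1) + 1 from rfl, Nat.add_mod_left]
        exact Nat.mod_eq_of_lt (by omega)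
      rw [Nat.mod_self, h4]
      unfold c
      constructor <;> split_ifs <;> omega

end COL

theorem P_COL : S_COL := by
  intro n hn
  have : NeZero n := ⟨by omega⟩
  refine ⟨fun i => COL.c n i.val, fun i => COL.c_le n _, fun i => ?_⟩
  have h1 : (i + 1).val = (i.val + 1) % n := by
    have h := ZMod.val_add i ((1 : ℕ) : ZMod n)
    rw [ZMod.val_natCast, Nat.mod_eq_of_lt (by omega : 1 < n)] at h
    simpa using h
  have h2 : (i + 2).val = (i.val + 2) % n := by
    have h := ZMod.val_add i ((2 : ℕ) : ZMod n)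
    rw [ZMod.val_natCast, Nat.mod_eq_of_lt (by omega : 2 < n)] at h
    simpa using h
  simp only [h1, h2]
  exact COL.c_ne n i.val hn (ZMod.val_lt i)

end Pool.Agent.K6.H2.HS
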