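import Pool.Agent.K6.H2.HS.Stm

/-! PIECE COVB (helper86): which pairs are covered by the special copies. -/

set_option autoImplicit false

namespace Pool.Agent.K6.H2.HS

namespace COVB

section

variable {V : Type} {m : ℕ} (σ : Equiv.Perm V) (d : ZMod m → ℤ) (a : Equiv.Perm (ZMod m)) (c : ZMod m)

lemma spec_apply (x : V) (t : ZMod m) :
    spec σ d a c (x, c + a t) = ((σ ^ (d t)) x, c + a (t + 1)) := by
  simp [spec, lab, base]

lemma no_fix (n : ℕ) [Fintype V] (hn : 5 ≤ n) (hV : Fintype.card V = n) (hσ : Cyc σ) (x : V) (k : ℕ)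
    (hk0 : 0 < k) (hk : k ≤ 4) : (σ ^ k) x ≠ x := by
  intro h
  have hs : Function.Surjective (fun i : Fin k => (σ ^ (i : ℕ)) x) := by
    intro y
    obtain ⟨j, hj⟩ := hσ x y
    refine ⟨⟨j % k, Nat.mod_lt _ hk0⟩, ?_⟩
    show (σ ^ (j % k)) x = y
    rw [← hj]
    conv_rhs => rw [← Nat.mod_add_div j k, pow_add, pow_mul]
    rw [Equiv.Perm.mul_apply, Equiv.Perm.pow_apply_eq_self_of_apply_eq_self h]
  have h1 := Fintype.card_le_of_surjective _ hs
  rw [Fintype.card_fin] at h1
  omega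

lemma zlt (n : ℕ) [Fintype V] (hn : 5 ≤ n) (hV : Fintype.card V = n) (hσ : Cyc σ) (x : V) (D E : ℤ)
    (h : (σ ^ D) x = (σ ^ E) x) (hD : |D| ≤ 2) (hE : |E| ≤ 2) : ¬ D < E := by
  intro hlt
  rw [abs_le] at hD hE
  have h1 : (σ ^ (E - D)) ((σ ^ D) x) = (σ ^ D) x := by
    rw [← Equiv.Perm.mul_apply, ← zpow_add, sub_add_cancel]
    exact h.symm
  obtain ⟨k, hk⟩ := Int.eq_ofNat_of_zero_le (by omega : 0 ≤ E - D)
  rw [hk, zpow_natCast] at h1
  exact no_fix σ n hn hV hσ _ k (by omega) (by omega) h1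

lemma zinj (n : ℕ) [Fintype V] (hn : 5 ≤ n) (hV : Fintype.card V = n) (hσ : Cyc σ) (x : V) (D E : ℤ)
    (h : (σ ^ D) x = (σ ^ E) x) (hD : |D| ≤ 2) (hE : |E| ≤ 2) : D = E := by
  have h1 := zlt σ n hn hV hσ x D E h hD hE
  have h2 := zlt σ n hn hV hσ x E D h.symm hE hD
  omega

lemma exists_t (b : ZMod m) : ∃ t, b = c + a t := ⟨a.symm (b - c), by simp⟩

lemma fwd (n : ℕ) [Fintype V] (hn : 5 ≤ n) (hV : Fintype.card V = n) (hσ : Cyc σ)
    (hbd : ∀ tk, |(dY d a tk).1| ≤ 2) (δ : ℤ) (hδ : |δ| ≤ 2) (x : V) (b b' : ZMod m) :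
    (((σ ^ δ) x, b') = spec σ d a c (x, b) ∨ ((σ ^ δ) x, b') = spec σ d a c (spec σ d a c (x, b))) ↔
      ∃ tk, dY d a tk = (δ, b' - b) ∧ c = b - a tk.1 := by
  obtain ⟨t, rfl⟩ := exists_t a c b
  have e2 : (t + 1) + 1 = t + 2 := by ring
  rw [spec_apply, spec_apply, ← Equiv.Perm.mul_apply, ← zpow_add, e2]
  constructor
  · rintro (h | h)
    · obtain ⟨h1, h2⟩ := Prod.mk.inj h
      have h3 : δ = d t := zinj σ n hn hV hσ x δ (d t) h1 hδ (by
        have := hbd (t, false)
        simpa [dY] using this)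
      refine ⟨(t, false), ?_, by ring⟩
      simp only [dY, Bool.false_eq_true, if_false]
      rw [h2, h3]
      congr 1
      ring
    · obtain ⟨h1, h2⟩ := Prod.mk.inj h
      have h3 : δ = d (t + 1) + d t := zinj σ n hn hV hσ x δ _ h1 hδ (by
        have := hbd (t, true)
        rw [add_comm]
        simpa [dY] using this)
      refine ⟨(t, true), ?_, by ring⟩
      simp only [dY, if_true]
      rw [h2, h3]
      congr 1
      · ring
      · ring
  · rintro ⟨⟨s, k⟩, h1, h2⟩
    have h3 : s = t := by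
      apply a.injective
      have h4 : c = c + a t - a s := h2
      have h5 : a t - a s = 0 := by
        have : c + (a t - a s) = c + 0 := by rw [add_zero, ← add_sub_assoc]; exact h4.symm
        exact add_left_cancel this
      exact (sub_eq_zero.1 h5).symm
    subst h3
    cases k with
    | false =>
      left
      simp only [dY, Bool.false_eq_true, if_false] at h1
      obtain ⟨g1, g2⟩ := Prod.mk.inj h1
      rw [g1]
      have g3 : b' = c + a (s + 1) := by
        have : b' = (b' - (c + a s)) + (c + a s) := by ring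
        rw [this, ← g2]
        ring
      rw [g3]
    | true =>
      right
      simp only [dY, if_true] at h1
      obtain ⟨g1, g2⟩ := Prod.mk.inj h1
      rw [add_comm (d (s + 1)), g1]
      have g3 : b' = c + a (s + 2) := by
        have : b' = (b' - (c + a s)) + (c + a s) := by ring
        rw [this, ← g2]
        ring
      rw [g3]

lemma nb_iff (n : ℕ) [Fintype V] (hn : 5 ≤ n) (hV : Fintype.card V = n) (hσ : Cyc σ)
    (hbd : ∀ tk, |(dY d a tk).1| ≤ 2) (δ : ℤ) (hδ : |δ| ≤ 2) (x : V) (b b' : ZMod m) :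
    Nb (spec σ d a c) (x, b) ((σ ^ δ) x, b') ↔
      (∃ tk, dY d a tk = (δ, b' - b) ∧ c = b - a tk.1) ∨
      (∃ tk, dY d a tk = (-δ, -(b' - b)) ∧ c = b' - a tk.1) := by
  have h1 := fwd σ d a c n hn hV hσ hbd δ hδ x b b'
  have h2 := fwd σ d a c n hn hV hσ hbd (-δ) (by rwa [abs_neg]) ((σ ^ δ) x) b' b
  have e : (σ ^ (-δ)) ((σ ^ δ) x) = x := by
    rw [← Equiv.Perm.mul_apply, ← zpow_add, neg_add_cancel, zpow_zero, Equiv.Perm.one_apply]
  rw [e, ← neg_sub b' b] at h2
  rw [← h1, ← h2]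
  unfold Nb
  tauto

/-- where the special copies go -/
lemma image (x y : V) (b b' : ZMod m)
    (h : (y, b') = spec σ d a c (x, b) ∨ (y, b') = spec σ d a c (spec σ d a c (x, b))) :
    ∃ tk, y = (σ ^ (dY d a tk).1) x := by
  obtain ⟨t, rfl⟩ := exists_t a c b
  rw [spec_apply, spec_apply, ← Equiv.Perm.mul_apply, ← zpow_add] at h
  rcases h with h | h
  · exact ⟨(t, false), (Prod.mk.inj h).1⟩
  · refine ⟨(t, true), ?_⟩
    rw [(Prod.mk.inj h).1, add_comm]
    rfl

end

lemma odd_two (m : ℕ) (hm : Odd m) (u : ZMod m) (h : u = -u) : u = 0 := by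
  have h2 : (2 : ZMod m) * u = 0 := by
    rw [two_mul]
    nth_rewrite 2 [h]
    exact add_neg_cancel u
  have hu : IsUnit (2 : ZMod m) := by
    have := (ZMod.isUnit_iff_coprime 2 m).2 (Nat.coprime_two_left.2 hm)
    simpa using this
  exact (hu.mul_right_eq_zero).1 h2

end COVB

open COVB in
theorem P_COVB : S_COVB := by
  intro m n _ V _ σ d a hm hn hV hσ hbd
  refine ⟨fun δ x b b' hδ0 hδ2 hδb => ?_, fun x y b b' hxy c hnb => ?_⟩
  · have hδ : |δ| ≤ 2 := by rw [abs_le]; constructor <;> omega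
    have key := fun c => nb_iff σ d a c n hn hV hσ hbd δ hδ x b b'
    constructor
    · rintro ⟨tk, h1, h2⟩
      have hun : ∀ c c', Nb (spec σ d a c) (x, b) ((σ ^ δ) x, b') → Nb (spec σ d a c') (x, b) ((σ ^ δ) x, b') →
          c = c' := by
        intro c c' hc hc'
        rw [key] at hc hc'
        have both : ∀ tk, dY d a tk = (δ, b' - b) → dY d a tk = (-δ, -(b' - b)) → False := by
          intro tk g1 g2
          rw [g1] at g2
          obtain ⟨g3, g4⟩ := Prod.mk.inj g2
          have g5 : δ = 0 := by omega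
          exact hδb g5 (sub_eq_zero.1 (odd_two m hm _ g4)).symm
        rcases hc with ⟨s, g1, g2⟩ | ⟨s, g1, g2⟩ <;> rcases hc' with ⟨s', g1', g2'⟩ | ⟨s', g1', g2'⟩
        · have e1 := h2 s (Or.inl g1)
          have e2 := h2 s' (Or.inl g1')
          rw [g2, g2', e1, e2]
        · have e1 := h2 s (Or.inl g1)
          have e2 := h2 s' (Or.inr g1')
          rw [e1] at g1
          rw [e2] at g1'
          exact (both _ g1 g1').elim
        · have e1 := h2 s (Or.inr g1)
          have e2 := h2 s' (Or.inl g1')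
          rw [e1] at g1
          rw [e2] at g1'
          exact (both _ g1' g1).elim
        · have e1 := h2 s (Or.inr g1)
          have e2 := h2 s' (Or.inr g1')
          rw [g2, g2', e1, e2]
      rcases h1 with h1 | h1
      · refine ⟨b - a tk.1, (key _).2 (Or.inl ⟨tk, h1, rfl⟩), fun c' hc' => hun _ _ hc' ?_⟩
        exact (key _).2 (Or.inl ⟨tk, h1, rfl⟩)
      · refine ⟨b' - a tk.1, (key _).2 (Or.inr ⟨tk, h1, rfl⟩), fun c' hc' => hun _ _ hc' ?_⟩
        exact (key _).2 (Or.inr ⟨tk, h1, rfl⟩)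
    · intro hno c hc
      rcases (key c).1 hc with ⟨s, g1, -⟩ | ⟨s, g1, -⟩
      · exact hno s (Or.inl g1)
      · exact hno s (Or.inr g1)
  · have hor : ((y, b') = spec σ d a c (x, b) ∨ (y, b') = spec σ d a c (spec σ d a c (x, b))) ∨
        ((x, b) = spec σ d a c (y, b') ∨ (x, b) = spec σ d a c (spec σ d a c (y, b'))) := by
      unfold Nb at hnb
      tauto
    rcases hor with h | h
    · obtain ⟨tk, h1⟩ := image σ d a c x y b b' h
      exact hxy _ (hbd tk) h1
    · obtain ⟨tk, h1⟩ := image σ d a c y x b' b h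
      refine hxy (-(dY d a tk).1) (by rw [abs_neg]; exact hbd tk) ?_
      rw [h1, ← Equiv.Perm.mul_apply, ← zpow_add, neg_add_cancel, zpow_zero, Equiv.Perm.one_apply]

end Pool.Agent.K6.H2.HS
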