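import Pool.Agent.K6.H2.HS.Stm

/-!
# Piece COVL: which pairs are covered by a skew product
-/

set_option autoImplicit false

namespace Pool.Agent.K6.H2.HS

namespace COVL

theorem ne_self {V : Type} [Fintype V] (σ : Equiv.Perm V) (hσ : Cyc σ) (k : ℕ) (hk : 0 < k)
    (hkn : k < Fintype.card V) (x : V) : σ^[k] x ≠ x := by
  intro h
  have hper : Function.IsPeriodicPt σ k x := h
  have hs : Function.Surjective (fun i : Fin k => σ^[(i : ℕ)] x) := by
    intro y
    obtain ⟨j, hj⟩ := hσ x y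
    refine ⟨⟨j % k, Nat.mod_lt j hk⟩, ?_⟩
    change σ^[j % k] x = y
    rw [hper.iterate_mod_apply j, Equiv.Perm.iterate_eq_pow, hj]
  have h1 := Fintype.card_le_of_surjective _ hs
  rw [Fintype.card_fin] at h1
  omega

end COVL

theorem P_COVL : S_COVL := by
  intro m n V _ σ g hn hV hσ
  have h1 : ∀ x, σ x ≠ x := fun x => COVL.ne_self σ hσ 1 (by norm_num) (by omega) x
  have h2 : ∀ x, σ (σ x) ≠ x := fun x => COVL.ne_self σ hσ 2 (by norm_num) (by omega) x
  have h3 : ∀ x, σ (σ (σ x)) ≠ x := fun x => COVL.ne_self σ hσ 3 (by norm_num) (by omega) x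
  have h4 : ∀ x, σ (σ (σ (σ x))) ≠ x := fun x => COVL.ne_self σ hσ 4 (by norm_num) (by omega) x
  have hs : ∀ (x : V) (b : ZMod m), skew σ g (x, b) = (σ x, b + g x) := fun _ _ => rfl
  refine ⟨?_, ?_, ?_, ?_⟩
  · intro x b b' h
    unfold Nb at h
    simp only [hs, Prod.mk.injEq] at h
    rcases h with ⟨h, _⟩ | ⟨h, _⟩ | ⟨h, _⟩ | ⟨h, _⟩
    · exact h1 x h.symm
    · exact h2 x h.symm
    · exact h1 x h.symm
    · exact h2 x h.symm
  · intro x b b'
    unfold Nb
    simp only [hs, Prod.mk.injEq]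
    constructor
    · rintro (⟨_, h⟩ | ⟨h, _⟩ | ⟨h, _⟩ | ⟨h, _⟩)
      · rw [h]; ring
      · exact absurd h.symm (h1 (σ x))
      · exact absurd h.symm (h2 x)
      · exact absurd h.symm (h3 x)
    · intro h
      exact Or.inl ⟨trivial, by rw [h]; ring⟩
  · intro x b b'
    unfold Nb
    simp only [hs, Prod.mk.injEq]
    constructor
    · rintro (⟨h, _⟩ | ⟨_, h⟩ | ⟨h, _⟩ | ⟨h, _⟩)
      · exact absurd h (h1 (σ x))
      · rw [h]; ring
      · exact absurd h.symm (h3 x)
      · exact absurd h.symm (h4 x)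
    · intro h
      refine Or.inr (Or.inl ⟨trivial, ?_⟩)
      have : b + g x + g (σ x) = b + (g x + g (σ x)) := by ring
      rw [this, h]; ring
  · intro x y b b' hn' h
    apply hn'
    unfold Nb at h ⊢
    simp only [hs, Prod.mk.injEq] at h
    rcases h with ⟨h, _⟩ | ⟨h, _⟩ | ⟨h, _⟩ | ⟨h, _⟩
    · exact Or.inl h
    · exact Or.inr (Or.inl h)
    · exact Or.inr (Or.inr (Or.inl h))
    · exact Or.inr (Or.inr (Or.inr h))

end Pool.Agent.K6.H2.HS
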