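import Pool.Agent.K6.H2.HS.Stm

/-!
# Piece CYC: coordinates along a single cycle
-/

set_option autoImplicit false

namespace Pool.Agent.K6.H2.HS

theorem P_CYC : S_CYC := by
  intro n V _ σ hn hV hσ
  have hne : NeZero n := ⟨hn.ne'⟩
  have hVne : Nonempty V := Fintype.card_pos_iff.1 (by rw [hV]; exact hn)
  obtain ⟨x0⟩ := hVne
  set p := Function.minimalPeriod σ x0 with hp
  have hpp : 0 < p :=
    Function.minimalPeriod_pos_of_mem_periodicPts (σ.injective.mem_periodicPts x0)
  have hit : ∀ k : ℕ, (σ ^ k) x0 = σ^[k] x0 := fun k => by rw [Equiv.Perm.iterate_eq_pow]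
  have hmod' : ∀ k : ℕ, (σ ^ (k % p)) x0 = (σ ^ k) x0 := fun k => by
    rw [hit, hit, hp, Function.iterate_mod_minimalPeriod_eq]
  have hle1 : n ≤ p := by
    have hs : Function.Surjective (fun i : Fin p => (σ ^ (i : ℕ)) x0) := by
      intro y
      obtain ⟨k, hk⟩ := hσ x0 y
      exact ⟨⟨k % p, Nat.mod_lt k hpp⟩, (hmod' k).trans hk⟩
    have := Fintype.card_le_of_surjective _ hs
    rwa [hV, Fintype.card_fin] at this
  have hle2 : p ≤ n := by
    have hi : Function.Injective (fun i : Fin p => (σ ^ (i : ℕ)) x0) := by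
      intro i j hij
      have h1 : σ^[(i : ℕ)] x0 = σ^[(j : ℕ)] x0 := by
        rw [← hit, ← hit]
        exact hij
      exact Fin.ext (Function.iterate_injOn_Iio_minimalPeriod i.2 j.2 h1)
    have := Fintype.card_le_of_injective _ hi
    rwa [hV, Fintype.card_fin] at this
  have hpn : p = n := le_antisymm hle2 hle1
  rw [hpn] at hmod'
  have hsurj : Function.Surjective (fun t : ZMod n => (σ ^ t.val) x0) := by
    intro y
    obtain ⟨k, hk⟩ := hσ x0 y
    refine ⟨(k : ZMod n), ?_⟩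
    change (σ ^ ((k : ZMod n)).val) x0 = y
    rw [ZMod.val_natCast, hmod' k, hk]
  have hbij : Function.Bijective (fun t : ZMod n => (σ ^ t.val) x0) :=
    (Fintype.bijective_iff_surjective_and_card _).2 ⟨hsurj, by rw [ZMod.card, hV]⟩
  refine ⟨Equiv.ofBijective _ hbij, fun t => ?_⟩
  change (σ ^ (t + 1).val) x0 = σ ((σ ^ t.val) x0)
  rw [ZMod.val_add, ZMod.val_one_eq_one_mod, Nat.add_mod_mod, hmod', pow_succ', Equiv.Perm.mul_apply]

end Pool.Agent.K6.H2.HS
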