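import Pool.Agent.K6.H2.HS.Stm

namespace Pool.Agent.K6.H2.HS

theorem not_nb_self {n : ℕ} (hn : 8 ≤ n) (σ : Equiv.Perm (Fin n)) (hσ : Cyc σ) (x : Fin n) :
    ¬ Nb σ x x := by
  intro h
  have h2 : σ (σ x) = x := by
    rcases h with h | h | h | h
    · rw [← h, ← h]
    · exact h.symm
    · rw [← h, ← h]
    · exact h.symm
  have h3 : ∀ k : ℕ, (σ ^ k) x = x ∨ (σ ^ k) x = σ x := by
    intro k
    induction k with
    | zero => left; simp
    | succ k ih =>
      rw [pow_succ', Equiv.Perm.mul_apply]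
      rcases ih with ih | ih
      · right; rw [ih]
      · left; rw [ih, h2]
  have h4 : ∀ y : Fin n, y = x ∨ y = σ x := by
    intro y
    obtain ⟨k, hk⟩ := hσ x y
    rcases h3 k with h | h
    · left; rw [← hk, h]
    · right; rw [← hk, h]
  have a0 := h4 ⟨0, by omega⟩
  have a1 := h4 ⟨1, by omega⟩
  have a2 := h4 ⟨2, by omega⟩
  have e01 : (⟨0, by omega⟩ : Fin n) ≠ ⟨1, by omega⟩ := by simp
  have e02 : (⟨0, by omega⟩ : Fin n) ≠ ⟨2, by omega⟩ := by simp
  have e12 : (⟨1, by omega⟩ : Fin n) ≠ ⟨2, by omega⟩ := by simp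
  rcases a0 with a0 | a0 <;> rcases a1 with a1 | a1 <;> rcases a2 with a2 | a2
  · exact e01 (a0.trans a1.symm)
  · exact e01 (a0.trans a1.symm)
  · exact e02 (a0.trans a2.symm)
  · exact e12 (a1.trans a2.symm)
  · exact e12 (a1.trans a2.symm)
  · exact e02 (a0.trans a2.symm)
  · exact e01 (a0.trans a1.symm)
  · exact e01 (a0.trans a1.symm)

theorem P_MUL (hF : S_FWD) (hB : S_BWD) (hBl : S_BLOW) (hS : S_SPEC) : S_MUL := by
  intro m n r r' _ d a W z hm6 hn hn8 hc hco hD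
  have hm0 : 0 < m := Nat.pos_of_ne_zero (NeZero.ne m)
  obtain ⟨I, hI, σ, hcyc, hex⟩ := hF n (by omega) hD
  have hmodd : Odd m := by
    have h2 : Nat.Coprime m 2 := Nat.Coprime.coprime_dvd_right (by norm_num) hm6
    exact Nat.coprime_two_right.mp h2
  obtain ⟨j0, -, -⟩ := hex ⟨0, by omega⟩ ⟨1, by omega⟩ (by simp)
  obtain ⟨I0, hI0, τ0, hτ0, hcov0⟩ := hS m n r r' (Fin n) (σ j0) d a W z hmodd hn hn8 (by simp)
    (hcyc j0) hc hco
  have hb := fun j => hBl m n (Fin n) (σ j) (by omega) hm0 hm6 (by simp) (hcyc j)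
  choose τ hτ hcov using hb
  have hle : 1 * n ≤ m * n := Nat.mul_le_mul_right n hm0
  refine hB (m * n) (Fin n × ZMod m) (by omega) ?_
    ⟨({j : I // j ≠ j0} × ZMod m) ⊕ I0, inferInstance,
      Sum.elim (fun jc => τ jc.1 jc.2) τ0, ?_, ?_⟩
  · rw [Fintype.card_prod, Fintype.card_fin, ZMod.card, mul_comm]
  · rintro (⟨j, c⟩ | k)
    · exact hτ j c
    · exact hτ0 k
  · intro p q hpq
    by_cases h1 : p.1 = q.1
    · obtain ⟨k, hk, hku⟩ := (hcov0 p q hpq).1 (Or.inl h1)
      refine ⟨Sum.inr k, hk, ?_⟩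
      rintro (⟨j, c⟩ | k') h'
      · exfalso
        refine (hcov j p q).2 ?_ c h'
        rw [← h1]
        exact not_nb_self hn8 (σ j) (hcyc j) p.1
      · rw [hku k' h']
    · obtain ⟨j, hj, hju⟩ := hex p.1 q.1 h1
      by_cases hjj : j = j0
      · subst hjj
        obtain ⟨k, hk, hku⟩ := (hcov0 p q hpq).1 (Or.inr hj)
        refine ⟨Sum.inr k, hk, ?_⟩
        rintro (⟨j', c⟩ | k') h'
        · exfalso
          by_cases hn' : Nb (σ j'.1) p.1 q.1
          · exact j'.2 (hju j'.1 hn')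
          · exact (hcov j'.1 p q).2 hn' c h'
        · rw [hku k' h']
      · obtain ⟨c, hc', hcu⟩ := (hcov j p q).1 hj
        refine ⟨Sum.inl (⟨j, hjj⟩, c), hc', ?_⟩
        rintro (⟨j', c'⟩ | k') h'
        · by_cases hn' : Nb (σ j'.1) p.1 q.1
          · obtain ⟨j1, hj1⟩ := j'
            have : j1 = j := hju j1 hn'
            subst this
            rw [hcu c' h']
          · exact absurd h' ((hcov j'.1 p q).2 hn' c')
        · exfalso
          refine (hcov0 p q hpq).2 h1 ?_ k' h'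
          intro hn'
          exact hjj (hju j0 hn').symm

end Pool.Agent.K6.H2.HS
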