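import Pool.Agent.K6.H2.HS.Stm

/-!
# Piece `SKB` of call2b: the special copies are single cycles
(helper35 for helper2)
-/

namespace Pool.Agent.K6.H2.HS

namespace SKB

theorem pow_card {V : Type} [Fintype V] (σ : Equiv.Perm V) (n : ℕ) (hn : 0 < n)
    (hV : Fintype.card V = n) (hσ : Cyc σ) : σ ^ n = 1 := by
  classical
  haveI : Nonempty V := Fintype.card_pos_iff.1 (by rw [hV]; exact hn)
  obtain ⟨x₀⟩ := (inferInstance : Nonempty V)
  let f : Subgroup.zpowers σ → V := fun g => (g : Equiv.Perm V) x₀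
  have hinj : Function.Injective f := by
    rintro ⟨g, hg⟩ ⟨h, hh⟩ hgh
    obtain ⟨a, rfl⟩ := Subgroup.mem_zpowers_iff.1 hg
    obtain ⟨b, rfl⟩ := Subgroup.mem_zpowers_iff.1 hh
    apply Subtype.ext
    apply Equiv.ext
    intro y
    obtain ⟨k, hk⟩ := hσ x₀ y
    have h1 : (σ ^ a) x₀ = (σ ^ b) x₀ := hgh
    show (σ ^ a) y = (σ ^ b) y
    rw [← hk, ← Equiv.Perm.mul_apply, ← Equiv.Perm.mul_apply, ← zpow_natCast, ← zpow_add,
      ← zpow_add, add_comm a, add_comm b, zpow_add, zpow_add, Equiv.Perm.mul_apply,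
      Equiv.Perm.mul_apply, h1]
  have hsurj : Function.Surjective f := by
    intro y
    obtain ⟨k, hk⟩ := hσ x₀ y
    exact ⟨⟨σ ^ k, Subgroup.npow_mem_zpowers σ k⟩, hk⟩
  have h1 : Nat.card (Subgroup.zpowers σ) = Nat.card V :=
    Nat.card_congr (Equiv.ofBijective f ⟨hinj, hsurj⟩)
  rw [Nat.card_zpowers, Nat.card_eq_fintype_card, hV] at h1
  rw [← h1]
  exact pow_orderOf_eq_one σ

theorem zpow_eq {V : Type} (σ : Equiv.Perm V) (n : ℕ) (hs : σ ^ n = 1) (a b : ℤ)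
    (h : (n : ℤ) ∣ a - b) : σ ^ a = σ ^ b := by
  obtain ⟨c, hc⟩ := h
  have h1 : a = b + n * c := by linarith
  rw [h1, zpow_add, zpow_mul, zpow_natCast, hs, one_zpow, mul_one]

theorem base_pow {V : Type} {m : ℕ} (σ : Equiv.Perm V) (d : ZMod m → ℤ) (j : ℕ) (x : V)
    (s : ZMod m) :
    (base σ d ^ j) (x, s) = ((σ ^ (∑ i ∈ Finset.range j, d (s + (i : ZMod m)))) x, s + j) := by
  induction j with
  | zero => simp
  | succ j ih =>
    rw [pow_succ', Equiv.Perm.mul_apply, ih]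
    show ((σ ^ (d (s + (j : ZMod m))))
      ((σ ^ (∑ i ∈ Finset.range j, d (s + (i : ZMod m)))) x), s + (j : ZMod m) + 1) = _
    rw [Finset.sum_range_succ, ← Equiv.Perm.mul_apply, ← zpow_add,
      add_comm (d (s + (j : ZMod m)))]
    push_cast
    rw [add_assoc]

theorem sum_range {m : ℕ} [NeZero m] (d : ZMod m → ℤ) (t : ZMod m) :
    ∑ i ∈ Finset.range m, d (t + (i : ZMod m)) = ∑ u, d u := by
  have h1 : ∑ i ∈ Finset.range m, d (t + (i : ZMod m)) = ∑ u : ZMod m, d (t + u) := by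
    refine Finset.sum_nbij (fun i : ℕ => (i : ZMod m)) (fun _ _ => Finset.mem_univ _) ?_ ?_
      (fun _ _ => rfl)
    · intro i hi j hj hij
      rw [Finset.coe_range, Set.mem_Iio] at hi hj
      have h2 := (ZMod.natCast_eq_natCast_iff' i j m).1 hij
      rwa [Nat.mod_eq_of_lt hi, Nat.mod_eq_of_lt hj] at h2
    · intro u _
      refine ⟨u.val, ?_, ?_⟩
      · rw [Finset.coe_range, Set.mem_Iio]
        exact ZMod.val_lt u
      · exact ZMod.natCast_zmod_val u
  rw [h1]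
  exact Equiv.sum_comp (Equiv.addLeft t) d

theorem base_cyc (m n : ℕ) [NeZero m] (V : Type) [Fintype V] (σ : Equiv.Perm V)
    (d : ZMod m → ℤ) (hn : 0 < n) (hV : Fintype.card V = n) (hσ : Cyc σ)
    (hcop : IsCoprime (∑ t, d t) (n : ℤ)) : Cyc (base σ d) := by
  have hs := pow_card σ n hn hV hσ
  have hm : ∀ (l : ℕ) (x : V) (t : ZMod m),
      (base σ d ^ (m * l)) (x, t) = ((σ ^ ((∑ u, d u) * (l : ℤ))) x, t) := by
    intro l
    induction l with
    | zero => intro x t; simp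
    | succ l ih =>
      intro x t
      rw [mul_add, mul_one, pow_add, Equiv.Perm.mul_apply, base_pow σ d m x t, sum_range,
        ZMod.natCast_self, add_zero, ih, ← Equiv.Perm.mul_apply, ← zpow_add]
      congr 3
      push_cast
      ring
  rintro ⟨x, s⟩ ⟨y, t⟩
  set j : ℕ := (t - s).val with hj
  have hjt : s + (j : ZMod m) = t := by
    rw [hj, ZMod.natCast_zmod_val]
    ring
  set x' : V := (σ ^ (∑ i ∈ Finset.range j, d (s + (i : ZMod m)))) x with hx'
  obtain ⟨k, hk⟩ := hσ x' y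
  obtain ⟨a, b, hab⟩ := hcop
  set l : ℕ := (((k : ℤ) * a) % (n : ℤ)).toNat with hl
  have hnz : (n : ℤ) ≠ 0 := by exact_mod_cast hn.ne'
  have hlz : (l : ℤ) = ((k : ℤ) * a) % (n : ℤ) :=
    Int.toNat_of_nonneg (Int.emod_nonneg _ hnz)
  refine ⟨m * l + j, ?_⟩
  rw [pow_add, Equiv.Perm.mul_apply, base_pow σ d j x s, hjt, ← hx', hm]
  have h1 : σ ^ ((∑ u, d u) * (l : ℤ)) = σ ^ (k : ℤ) := by
    refine zpow_eq σ n hs _ _ ?_
    rw [hlz]
    have h2 : ((k : ℤ) * a) % (n : ℤ) = (k : ℤ) * a - n * (((k : ℤ) * a) / (n : ℤ)) := by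
      have := Int.emod_add_mul_ediv ((k : ℤ) * a) (n : ℤ)
      linarith
    rw [h2]
    refine ⟨-((k : ℤ) * b) - (∑ u, d u) * (((k : ℤ) * a) / (n : ℤ)), ?_⟩
    have h3 : (k : ℤ) = k * (a * (∑ t, d t) + b * (n : ℤ)) := by rw [hab, mul_one]
    calc (∑ u, d u) * ((k : ℤ) * a - n * (((k : ℤ) * a) / (n : ℤ))) - (k : ℤ) =
        (∑ u, d u) * ((k : ℤ) * a - n * (((k : ℤ) * a) / (n : ℤ))) -
          k * (a * (∑ t, d t) + b * (n : ℤ)) := by rw [← h3]
      _ = _ := by ring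
  rw [h1, zpow_natCast, hk]

end SKB

theorem P_SKB : S_SKB := by
  intro m n _ V _ σ d a c hn hV hσ hcop
  have hb := SKB.base_cyc m n V σ d hn hV hσ hcop
  have hpow : ∀ (k : ℕ) (p : V × ZMod m),
      (spec σ d a c ^ k) p = lab a c ((base σ d ^ k) ((lab a c).symm p)) := by
    intro k
    induction k with
    | zero => intro p; simp
    | succ k ih =>
      intro p
      rw [pow_succ', Equiv.Perm.mul_apply, ih, pow_succ', Equiv.Perm.mul_apply]
      show lab a c (base σ d ((lab a c).symm (lab a c _))) = _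
      rw [Equiv.symm_apply_apply]
  intro p q
  obtain ⟨k, hk⟩ := hb ((lab a c).symm p) ((lab a c).symm q)
  refine ⟨k, ?_⟩
  rw [hpow, hk, Equiv.apply_symm_apply]

end Pool.Agent.K6.H2.HS
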