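import Pool.Agent.K6.H2.HS.Stm

/-!
# Piece SKEW: the skew product is a single cycle if the total is a unit
-/

set_option autoImplicit false

namespace Pool.Agent.K6.H2.HS

namespace SKEW

theorem pow_skew {V : Type} {m : ℕ} (σ : Equiv.Perm V) (g : V → ZMod m) (k : ℕ) (x : V)
    (b : ZMod m) :
    ((skew σ g) ^ k) (x, b) = ((σ ^ k) x, b + ∑ i ∈ Finset.range k, g ((σ ^ i) x)) := by
  induction k with
  | zero => simp
  | succ k ih =>
    rw [pow_succ', Equiv.Perm.mul_apply, ih, Finset.sum_range_succ, pow_succ' σ,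
      Equiv.Perm.mul_apply]
    change (_, _) = (_, _)
    rw [add_assoc]

theorem e_add {V : Type} {n : ℕ} (σ : Equiv.Perm V) (e : ZMod n ≃ V)
    (he : ∀ t, e (t + 1) = σ (e t)) (k : ℕ) (t : ZMod n) : e (t + k) = (σ ^ k) (e t) := by
  induction k with
  | zero => simp
  | succ k ih =>
    rw [pow_succ', Equiv.Perm.mul_apply, ← ih, ← he, Nat.cast_succ, add_assoc]

end SKEW

theorem P_SKEW (h : S_CYC) : S_SKEW := by
  intro m V _ σ g hm hσ hS
  have hmz : NeZero m := ⟨hm.ne'⟩
  rintro ⟨x, b⟩ ⟨y, b'⟩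
  have hV : 0 < Fintype.card V := Fintype.card_pos_iff.2 ⟨x⟩
  have hVz : NeZero (Fintype.card V) := ⟨hV.ne'⟩
  obtain ⟨e, he⟩ := h (Fintype.card V) V σ hV rfl hσ
  -- the sum over a full turn
  have hfix : ∀ z, (σ ^ Fintype.card V) z = z := by
    intro z
    have h1 := SKEW.e_add σ e he (Fintype.card V) (e.symm z)
    rw [ZMod.natCast_self, add_zero, Equiv.apply_symm_apply] at h1
    exact h1.symm
  have hsum : ∀ z, ∑ i ∈ Finset.range (Fintype.card V), g ((σ ^ i) z) = ∑ v, g v := by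
    intro z
    rw [Finset.sum_range]
    have hsurj : Function.Surjective (fun i : Fin (Fintype.card V) => (σ ^ (i : ℕ)) z) := by
      intro w
      refine ⟨⟨(e.symm w - e.symm z).val, ZMod.val_lt _⟩, ?_⟩
      change (σ ^ (e.symm w - e.symm z).val) z = w
      have h1 := SKEW.e_add σ e he (e.symm w - e.symm z).val (e.symm z)
      rw [ZMod.natCast_zmod_val, add_sub_cancel, Equiv.apply_symm_apply,
        Equiv.apply_symm_apply] at h1
      exact h1.symm
    have hbij : Function.Bijective (fun i : Fin (Fintype.card V) => (σ ^ (i : ℕ)) z) :=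
      (Fintype.bijective_iff_surjective_and_card _).2 ⟨hsurj, by rw [Fintype.card_fin]⟩
    exact hbij.sum_comp g
  have hturn : ∀ (z : V) (c : ZMod m),
      ((skew σ g) ^ Fintype.card V) (z, c) = (z, c + ∑ v, g v) := by
    intro z c
    rw [SKEW.pow_skew, hfix, hsum]
  have hturns : ∀ (k : ℕ) (z : V) (c : ZMod m),
      (((skew σ g) ^ Fintype.card V) ^ k) (z, c) = (z, c + k * ∑ v, g v) := by
    intro k z c
    induction k with
    | zero => simp
    | succ k ih =>
      rw [pow_succ', Equiv.Perm.mul_apply, ih, hturn]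
      congr 1
      push_cast
      ring
  obtain ⟨j, hj⟩ := hσ x y
  obtain ⟨u, hu⟩ := hS
  set c := b + ∑ i ∈ Finset.range j, g ((σ ^ i) x) with hc
  refine ⟨Fintype.card V * ((b' - c) * (↑u⁻¹ : ZMod m)).val + j, ?_⟩
  rw [pow_add, Equiv.Perm.mul_apply, SKEW.pow_skew σ g j, hj, pow_mul, ← hc, hturns,
    ZMod.natCast_zmod_val, ← hu, mul_assoc, Units.inv_mul, mul_one, add_sub_cancel]

end Pool.Agent.K6.H2.HS
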