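import Mathlib

/-!
Definitions and exact statements for MP_eaf1c8_co (decomposing complete graphs into squares of
Hamilton cycles): product theorems `K_n` decomposes implies `K_{mn}` decomposes.
-/

namespace Pool.Agent.K6.H2.HS

/-- The square of the cycle on `ZMod n`: `i` and `j` are adjacent exactly when they are distinct
and `i - j` is `1`, `-1`, `2` or `-2`. -/
def sqCycle (n : ℕ) : SimpleGraph (ZMod n) where
  Adj i j := i ≠ j ∧ (i - j = 1 ∨ i - j = -1 ∨ i - j = 2 ∨ i - j = -2)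
  symm := ⟨by
    rintro i j ⟨h, h'⟩
    refine ⟨h.symm, ?_⟩
    rw [← neg_sub i j]
    rcases h' with h' | h' | h' | h' <;> simp [h']⟩
  loopless := ⟨fun i h => h.1 rfl⟩

/-- The edges of the complete graph on `n` vertices are partitioned into squares of Hamilton
cycles. -/
def Decomp (n : ℕ) : Prop :=
  ∃ (k : ℕ) (G : Fin k → SimpleGraph (Fin n)),
    (∀ j, Nonempty (G j ≃g sqCycle n)) ∧ ∀ x y, x ≠ y → ∃! j, (G j).Adj x y

/-- `x` and `y` are at distance one or two along `σ`. -/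
def Nb {V : Type} (σ : Equiv.Perm V) (x y : V) : Prop :=
  y = σ x ∨ y = σ (σ x) ∨ x = σ y ∨ x = σ (σ y)

/-- `σ` is transitive: a single cycle. -/
def Cyc {V : Type} (σ : Equiv.Perm V) : Prop := ∀ x y, ∃ k : ℕ, (σ ^ k) x = y

/-- The permutation form of a decomposition. -/
def DP (V : Type) : Prop :=
  ∃ (I : Type) (_ : Finite I) (σ : I → Equiv.Perm V),
    (∀ j, Cyc (σ j)) ∧ ∀ x y, x ≠ y → ∃! j, Nb (σ j) x y

/-- PIECE FWD. -/
def S_FWD : Prop := ∀ n : ℕ, 5 ≤ n → Decomp n → DP (Fin n)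

/-- PIECE BWD. -/
def S_BWD : Prop := ∀ (n : ℕ) (V : Type) [Fintype V], 5 ≤ n → Fintype.card V = n → DP V → Decomp n

/-- PIECE CYC: coordinates along a single cycle. -/
def S_CYC : Prop := ∀ (n : ℕ) (V : Type) [Fintype V] (σ : Equiv.Perm V), 0 < n →
  Fintype.card V = n → Cyc σ → ∃ e : ZMod n ≃ V, ∀ t, e (t + 1) = σ (e t)

/-- Skew product `(x, b) ↦ (σ x, b + g x)`. -/
def skew {V : Type} {m : ℕ} (σ : Equiv.Perm V) (g : V → ZMod m) : Equiv.Perm (V × ZMod m) where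
  toFun p := (σ p.1, p.2 + g p.1)
  invFun p := (σ.symm p.1, p.2 - g (σ.symm p.1))
  left_inv p := by simp
  right_inv p := by simp

/-- PIECE SKEW: the skew product is a single cycle if the total is a unit. -/
def S_SKEW : Prop := ∀ (m : ℕ) (V : Type) [Fintype V] (σ : Equiv.Perm V) (g : V → ZMod m),
  0 < m → Cyc σ → IsUnit (∑ x, g x) → Cyc (skew σ g)

/-- PIECE COL: a proper colouring of the square of a cycle with at most five colours. -/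
def S_COL : Prop := ∀ (n : ℕ), 5 ≤ n → ∃ C : ZMod n → ℕ, (∀ i, C i ≤ 4) ∧
  ∀ i, C i ≠ C (i + 1) ∧ C i ≠ C (i + 2)

/-- PIECE BLOW: the blow-up of the square of a Hamilton cycle. -/
def S_BLOW : Prop := ∀ (m n : ℕ) (V : Type) [Fintype V] (σ : Equiv.Perm V), 5 ≤ n → 0 < m →
  Nat.Coprime m 6 → Fintype.card V = n → Cyc σ →
  ∃ τ : ZMod m → Equiv.Perm (V × ZMod m), (∀ c, Cyc (τ c)) ∧
    ∀ p q, (Nb σ p.1 q.1 → ∃! c, Nb (τ c) p q) ∧ (¬ Nb σ p.1 q.1 → ∀ c, ¬ Nb (τ c) p q)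

/-- The basic permutation `(x, t) ↦ (σ ^ (d t) x, t + 1)`. -/
def base {V : Type} {m : ℕ} (σ : Equiv.Perm V) (d : ZMod m → ℤ) : Equiv.Perm (V × ZMod m) where
  toFun p := ((σ ^ (d p.2)) p.1, p.2 + 1)
  invFun p := ((σ ^ (d (p.2 - 1))).symm p.1, p.2 - 1)
  left_inv p := by simp
  right_inv p := by simp

/-- The relabelling `(x, t) ↦ (x, c + a t)`. -/
def lab {V : Type} {m : ℕ} (a : Equiv.Perm (ZMod m)) (c : ZMod m) :
    V × ZMod m ≃ V × ZMod m :=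
  Equiv.prodCongr (Equiv.refl V) (a.trans (Equiv.addLeft c))

/-- The special copies: `(x, c + a t) ↦ (σ ^ (d t) x, c + a (t + 1))`. -/
def spec {V : Type} {m : ℕ} (σ : Equiv.Perm V) (d : ZMod m → ℤ) (a : Equiv.Perm (ZMod m))
    (c : ZMod m) : Equiv.Perm (V × ZMod m) :=
  (lab a c).symm.trans ((base σ d).trans (lab a c))

/-- PIECE SKB: the special copies are single cycles. -/
def S_SKB : Prop := ∀ (m n : ℕ) [NeZero m] (V : Type) [Fintype V] (σ : Equiv.Perm V)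
  (d : ZMod m → ℤ) (a : Equiv.Perm (ZMod m)) (c : ZMod m), 0 < n → Fintype.card V = n → Cyc σ →
  IsCoprime (∑ t, d t) (n : ℤ) → Cyc (spec σ d a c)

/-- The pair (layer difference, label difference) of the edge `tk` of the special copies. -/
def dY {m : ℕ} (d : ZMod m → ℤ) (a : Equiv.Perm (ZMod m)) (tk : ZMod m × Bool) : ℤ × ZMod m :=
  if tk.2 then (d tk.1 + d (tk.1 + 1), a (tk.1 + 2) - a tk.1)
  else (d tk.1, a (tk.1 + 1) - a tk.1)

/-- The edge `tk` has differences `(δ, x)` or `(-δ, -x)`. -/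
def hits {m : ℕ} (d : ZMod m → ℤ) (a : Equiv.Perm (ZMod m)) (tk : ZMod m × Bool) (δ : ℤ)
    (x : ZMod m) : Prop :=
  dY d a tk = (δ, x) ∨ dY d a tk = (-δ, -x)

instance {m : ℕ} (d : ZMod m → ℤ) (a : Equiv.Perm (ZMod m)) (tk : ZMod m × Bool) (δ : ℤ)
    (x : ZMod m) : Decidable (hits d a tk δ x) := by unfold hits; infer_instance

/-- PIECE COVB: which pairs are covered by the special copies. -/
def S_COVB : Prop := ∀ (m n : ℕ) [NeZero m] (V : Type) [Fintype V] (σ : Equiv.Perm V)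
  (d : ZMod m → ℤ) (a : Equiv.Perm (ZMod m)), Odd m → 5 ≤ n → Fintype.card V = n → Cyc σ →
  (∀ tk, |(dY d a tk).1| ≤ 2) →
  (∀ (δ : ℤ) (x : V) (b b' : ZMod m), 0 ≤ δ → δ ≤ 2 → (δ = 0 → b ≠ b') →
    ((∃! tk, hits d a tk δ (b' - b)) →
      ∃! c, Nb (spec σ d a c) (x, b) ((σ ^ δ) x, b')) ∧
    ((∀ tk, ¬ hits d a tk δ (b' - b)) →
      ∀ c, ¬ Nb (spec σ d a c) (x, b) ((σ ^ δ) x, b'))) ∧
  ∀ (x y : V) (b b' : ZMod m), (∀ δ : ℤ, |δ| ≤ 2 → y ≠ (σ ^ δ) x) →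
    ∀ c, ¬ Nb (spec σ d a c) (x, b) (y, b')

/-- PIECE COVL: which pairs are covered by a skew product. -/
def S_COVL : Prop := ∀ (m n : ℕ) (V : Type) [Fintype V] (σ : Equiv.Perm V) (g : V → ZMod m),
  5 ≤ n → Fintype.card V = n → Cyc σ →
  (∀ (x : V) (b b' : ZMod m), ¬ Nb (skew σ g) (x, b) (x, b')) ∧
  (∀ (x : V) (b b' : ZMod m), Nb (skew σ g) (x, b) (σ x, b') ↔ g x = b' - b) ∧
  (∀ (x : V) (b b' : ZMod m), Nb (skew σ g) (x, b) (σ (σ x), b') ↔ g x + g (σ x) = b' - b) ∧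
  ∀ (x y : V) (b b' : ZMod m), ¬ Nb σ x y → ¬ Nb (skew σ g) (x, b) (y, b')

/-- PIECE WALK: closed walks on the triangle. -/
def S_WALK : Prop := ∀ (n : ℕ) (V : Type) [Fintype V] (σ : Equiv.Perm V), 8 ≤ n →
  Fintype.card V = n → Cyc σ → ∃ (u : V → ZMod 3) (α β : ℤ),
    (∀ v, u (σ v) ≠ u v) ∧ ((α = 2 ∧ β = 1) ∨ (α = 3 ∧ β = 1) ∨ (α = 3 ∧ β = 2)) ∧
    ∀ (m : ℕ) (w : ZMod 3 → ZMod m), w 0 + w 1 + w 2 = 0 →
      ∑ v, w (u v) = (α : ZMod m) * w 0 + (β : ZMod m) * w 1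

/-- A certificate for the multiplier `m`: `r` zero-sum triples `W` and `r'` single elements `z`. -/
structure Cert (m r r' : ℕ) [NeZero m] (d : ZMod m → ℤ) (a : Equiv.Perm (ZMod m))
    (W : Fin r → ZMod 3 → ZMod m) (z : Fin r' → ZMod m) : Prop where
  s : ∃ e : ℕ, |∑ t, d t| = 2 ^ e
  bd : ∀ t, |d t| ≤ 2 ∧ |d t + d (t + 1)| ≤ 2
  zs : ∀ k, W k 0 + W k 1 + W k 2 = 0
  un : ∀ k j, IsUnit (2 * W k j + W k (j + 1)) ∧ IsUnit (3 * W k j + W k (j + 1)) ∧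
    IsUnit (3 * W k j + 2 * W k (j + 1))
  uz : ∀ k, IsUnit (z k)
  c0 : ∀ x : ZMod m, x ≠ 0 → ∃! tk, hits d a tk 0 x
  c1 : ∀ x : ZMod m, (∀ k j, W k j ≠ x) → (∀ k, z k ≠ x) → ∃! tk, hits d a tk 1 x
  c1W : ∀ k j tk, ¬ hits d a tk 1 (W k j)
  c1z : ∀ k tk, ¬ hits d a tk 1 (z k)
  c2 : ∀ x : ZMod m, (∀ k j, -W k j ≠ x) → (∀ k, 2 * z k ≠ x) → ∃! tk, hits d a tk 2 x
  c2W : ∀ k j tk, ¬ hits d a tk 2 (-W k j)
  c2z : ∀ k tk, ¬ hits d a tk 2 (2 * z k)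
  inj1 : Function.Injective
    (fun e : (Fin r × ZMod 3) ⊕ Fin r' => Sum.elim (fun kj => W kj.1 kj.2) z e)
  inj2 : Function.Injective
    (fun e : (Fin r × ZMod 3) ⊕ Fin r' => Sum.elim (fun kj => -W kj.1 kj.2) (fun k => 2 * z k) e)

/-- PIECE SPEC: the blow-up together with the layers. -/
def S_SPEC : Prop := ∀ (m n r r' : ℕ) [NeZero m] (V : Type) [Fintype V] (σ : Equiv.Perm V)
  (d : ZMod m → ℤ) (a : Equiv.Perm (ZMod m)) (W : Fin r → ZMod 3 → ZMod m)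
  (z : Fin r' → ZMod m), Odd m → Odd n → 8 ≤ n → Fintype.card V = n → Cyc σ →
  Cert m r r' d a W z → (r' = 0 ∨ Nat.Coprime n m) →
  ∃ (I : Type) (_ : Finite I) (τ : I → Equiv.Perm (V × ZMod m)), (∀ c, Cyc (τ c)) ∧
    ∀ p q, p ≠ q → (p.1 = q.1 ∨ Nb σ p.1 q.1 → ∃! c, Nb (τ c) p q) ∧
      (p.1 ≠ q.1 → ¬ Nb σ p.1 q.1 → ∀ c, ¬ Nb (τ c) p q)

/-- PIECE MUL: the product theorem. -/
def S_MUL : Prop := ∀ (m n r r' : ℕ) [NeZero m] (d : ZMod m → ℤ) (a : Equiv.Perm (ZMod m))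
  (W : Fin r → ZMod 3 → ZMod m) (z : Fin r' → ZMod m), Nat.Coprime m 6 → Odd n → 8 ≤ n →
  Cert m r r' d a W z → (r' = 0 ∨ Nat.Coprime n m) → Decomp n → Decomp (m * n)

/-- PIECE PRM: the prime case. -/
def S_PRM : Prop := ∀ p : ℕ, p.Prime → 5 ≤ p → 4 ∣ orderOf (2 : ZMod p) → Decomp p

end Pool.Agent.K6.H2.HS
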