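import Mathlib
import Pool.Agent.K6.H2.HS.Stm

/-!
# Piece SPEC: the blow-up together with the layers
-/

set_option autoImplicit false

namespace Pool.Agent.K6.H2.HS

namespace SpecP

lemma nb_symm {V : Type} (σ : Equiv.Perm V) (x y : V) : Nb σ x y ↔ Nb σ y x := by
  unfold Nb
  tauto

/-- the combination of the three kinds of copies -/
lemma comb {A : Type} {m r r' : ℕ} (f : (Fin r × ZMod 3) ⊕ Fin r' → ZMod m)
    (hf : Function.Injective f) (X : ZMod m) (t : ZMod 3) (T : A ⊕ ((Fin r × ZMod 3) ⊕ Fin r') → Prop)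
    (hT1 : ∀ k j, T (Sum.inr (Sum.inl (k, j))) ↔ f (Sum.inl (k, t + j)) = X)
    (hT2 : ∀ k, T (Sum.inr (Sum.inr k)) ↔ f (Sum.inr k) = X)
    (h1 : (∀ e, f e ≠ X) → ∃! c, T (Sum.inl c))
    (h2 : (∃ e, f e = X) → ∀ c, ¬ T (Sum.inl c)) :
    ∃! i : A ⊕ ((Fin r × ZMod 3) ⊕ Fin r'), T i := by
  by_cases h : ∃ e, f e = X
  · have h3 := h2 h
    obtain ⟨e, he⟩ := h
    rcases e with ⟨k, j⟩ | k
    · refine ⟨Sum.inr (Sum.inl (k, j - t)), (hT1 _ _).2 (by rw [add_sub_cancel]; exact he), ?_⟩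
      rintro (c | ⟨k', j'⟩ | k') hc
      · exact absurd hc (h3 c)
      · have h4 := hf (((hT1 _ _).1 hc).trans he.symm)
        simp only [Sum.inl.injEq, Prod.mk.injEq] at h4
        obtain ⟨rfl, rfl⟩ := h4
        rw [add_sub_cancel_left]
      · have h4 := hf (((hT2 _).1 hc).trans he.symm)
        simp at h4
    · refine ⟨Sum.inr (Sum.inr k), (hT2 _).2 he, ?_⟩
      rintro (c | ⟨k', j'⟩ | k') hc
      · exact absurd hc (h3 c)
      · have h4 := hf (((hT1 _ _).1 hc).trans he.symm)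
        simp at h4
      · have h4 := hf (((hT2 _).1 hc).trans he.symm)
        simp only [Sum.inr.injEq] at h4
        rw [h4]
  · have h' : ∀ e, f e ≠ X := fun e he => h ⟨e, he⟩
    obtain ⟨c, hc, hu⟩ := h1 h'
    refine ⟨Sum.inl c, hc, ?_⟩
    rintro (c' | ⟨k', j'⟩ | k') hc'
    · rw [hu c' hc']
    · exact absurd ((hT1 _ _).1 hc') (h' _)
    · exact absurd ((hT2 _).1 hc') (h' _)

lemma third (i i' : ZMod 3) (h : i' ≠ i) {m : ℕ} (w : ZMod 3 → ZMod m) (hw : w 0 + w 1 + w 2 = 0) :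
    w i + w i' = - w (-(i + i')) := by
  have h0 : ∀ i i' : ZMod 3, i' ≠ i → (i = 0 ∧ i' = 1 ∧ -(i + i') = 2) ∨
      (i = 0 ∧ i' = 2 ∧ -(i + i') = 1) ∨ (i = 1 ∧ i' = 0 ∧ -(i + i') = 2) ∨
      (i = 1 ∧ i' = 2 ∧ -(i + i') = 0) ∨ (i = 2 ∧ i' = 0 ∧ -(i + i') = 1) ∨
      (i = 2 ∧ i' = 1 ∧ -(i + i') = 0) := by decide
  rcases h0 i i' h with ⟨h1, h2, h3⟩ | ⟨h1, h2, h3⟩ | ⟨h1, h2, h3⟩ | ⟨h1, h2, h3⟩ | ⟨h1, h2, h3⟩ |
      ⟨h1, h2, h3⟩ <;> rw [h3, h1, h2] <;> linear_combination hw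

lemma third' (i i' j : ZMod 3) : -(i + j + (i' + j)) = -(i + i') + j := by
  have : ∀ i i' j : ZMod 3, -(i + j + (i' + j)) = -(i + i') + j := by decide
  exact this i i' j

lemma shift_sum {m : ℕ} (w : ZMod 3 → ZMod m) (hw : w 0 + w 1 + w 2 = 0) (j : ZMod 3) :
    w (0 + j) + w (1 + j) + w (2 + j) = 0 := by
  have h0 : ∀ j : ZMod 3, (0 + j = 0 ∧ 1 + j = 1 ∧ 2 + j = 2) ∨ (0 + j = 1 ∧ 1 + j = 2 ∧ 2 + j = 0) ∨
      (0 + j = 2 ∧ 1 + j = 0 ∧ 2 + j = 1) := by decide
  rcases h0 j with ⟨h1, h2, h3⟩ | ⟨h1, h2, h3⟩ | ⟨h1, h2, h3⟩ <;> rw [h1, h2, h3] <;>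
    linear_combination hw

end SpecP

open SpecP in
theorem P_SPEC (hs : S_SKEW) (hb : S_SKB) (hB : S_COVB) (hL : S_COVL) (hw : S_WALK) : S_SPEC := by
  intro m n r r' _ V _ σ d a W z hm hn hn8 hV hσ hC hco
  have hm0 : 0 < m := Nat.pos_of_ne_zero (NeZero.ne m)
  obtain ⟨u, α, β, hu, hαβ, hsum⟩ := hw n V σ hn8 hV hσ
  obtain ⟨hB1, hB2⟩ := hB m n V σ d a hm (by omega) hV hσ (by
    rintro ⟨t, k⟩
    unfold dY
    cases k
    · exact (hC.bd t).1
    · exact (hC.bd t).2)
  let τ : ZMod m ⊕ ((Fin r × ZMod 3) ⊕ Fin r') → Equiv.Perm (V × ZMod m) :=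
    Sum.elim (fun c => spec σ d a c)
      (Sum.elim (fun kj => skew σ (fun v => W kj.1 (u v + kj.2))) (fun k => skew σ (fun _ => z k)))
  have hcyc : ∀ c, Cyc (τ c) := by
    rintro (c | ⟨k, j⟩ | k)
    · refine hb m n V σ d a c (by omega) hV hσ ?_
      obtain ⟨e, he⟩ := hC.s
      have h1 : IsCoprime ((2 : ℤ) ^ e) (n : ℤ) := by
        apply IsCoprime.pow_left
        have h2 : IsCoprime ((2 : ℕ) : ℤ) ((n : ℕ) : ℤ) :=
          Nat.isCoprime_iff_coprime.2 ((Nat.coprime_two_left).2 hn)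
        exact_mod_cast h2
      rw [← he] at h1
      rcases abs_choice (∑ t, d t) with h2 | h2
      · rwa [h2] at h1
      · rw [h2] at h1
        exact (IsCoprime.neg_left_iff _ _).1 h1
    · refine hs m V σ (fun v => W k (u v + j)) hm0 hσ ?_
      have h1 := hsum m (fun i => W k (i + j)) (shift_sum (W k) (hC.zs k) j)
      have h2 := hC.un k j
      rw [show (∑ x, (fun v => W k (u v + j)) x) = ∑ v, (fun i => W k (i + j)) (u v) from rfl, h1]
      simp only [zero_add]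
      rw [add_comm (1 : ZMod 3) j]
      rcases hαβ with ⟨rfl, rfl⟩ | ⟨rfl, rfl⟩ | ⟨rfl, rfl⟩
      · simpa using h2.1
      · simpa using h2.2.1
      · simpa using h2.2.2
    · refine hs m V σ (fun _ => z k) hm0 hσ ?_
      have h1 : IsUnit ((n : ℕ) : ZMod m) := by
        rcases hco with h | h
        · exact absurd k.2 (by omega)
        · exact (ZMod.isUnit_iff_coprime n m).2 h
      rw [show (∑ x : V, (fun _ : V => z k) x) = ∑ _x : V, z k from rfl, Finset.sum_const,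
        Finset.card_univ, hV, nsmul_eq_mul]
      exact h1.mul (hC.uz k)
  -- the forward pairs
  have key0 : ∀ (x : V) (b b' : ZMod m), b ≠ b' → ∃! c, Nb (τ c) (x, b) (x, b') := by
    intro x b b' hbb
    have h1 := (hB1 0 x b b' le_rfl (by norm_num) (fun _ => hbb)).1
      (hC.c0 (b' - b) (sub_ne_zero.2 hbb.symm))
    rw [zpow_zero] at h1
    obtain ⟨c, hc, hu'⟩ := h1
    refine ⟨Sum.inl c, hc, ?_⟩
    rintro (c' | ⟨k, j⟩ | k) hc'
    · rw [hu' c' hc']
    · exact absurd hc' ((hL m n V σ (fun v => W k (u v + j)) (by omega) hV hσ).1 x b b')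
    · exact absurd hc' ((hL m n V σ (fun _ => z k) (by omega) hV hσ).1 x b b')
  have key1 : ∀ (x : V) (b b' : ZMod m), ∃! c, Nb (τ c) (x, b) (σ x, b') := by
    intro x b b'
    have h0 := hB1 1 x b b' (by norm_num) (by norm_num) (fun h => absurd h (by norm_num))
    rw [zpow_one] at h0
    refine comb (fun e => Sum.elim (fun kj => W kj.1 kj.2) z e) hC.inj1 (b' - b) (u x)
      (fun c => Nb (τ c) (x, b) (σ x, b')) ?_ ?_ ?_ ?_
    · intro k j
      exact (hL m n V σ (fun v => W k (u v + j)) (by omega) hV hσ).2.1 x b b'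
    · intro k
      exact (hL m n V σ (fun _ => z k) (by omega) hV hσ).2.1 x b b'
    · intro h
      exact h0.1 (hC.c1 _ (fun k j => h (Sum.inl (k, j))) (fun k => h (Sum.inr k)))
    · rintro ⟨⟨k, j⟩ | k, he⟩
      · exact h0.2 (fun tk ht => hC.c1W k j tk (by
          have he' : W k j = b' - b := he
          rw [he']; exact ht))
      · exact h0.2 (fun tk ht => hC.c1z k tk (by
          have he' : z k = b' - b := he
          rw [he']; exact ht))
  have key2 : ∀ (x : V) (b b' : ZMod m), ∃! c, Nb (τ c) (x, b) (σ (σ x), b') := by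
    intro x b b'
    have h0 := hB1 2 x b b' (by norm_num) (by norm_num) (fun h => absurd h (by norm_num))
    rw [show (σ ^ (2 : ℤ)) x = σ (σ x) from by
      rw [zpow_two]; rfl] at h0
    refine comb (fun e => Sum.elim (fun kj => -W kj.1 kj.2) (fun k => 2 * z k) e) hC.inj2 (b' - b)
      (-(u x + u (σ x))) (fun c => Nb (τ c) (x, b) (σ (σ x), b')) ?_ ?_ ?_ ?_
    · intro k j
      refine ((hL m n V σ (fun v => W k (u v + j)) (by omega) hV hσ).2.2.1 x b b').trans ?_
      show W k (u x + j) + W k (u (σ x) + j) = b' - b ↔ -W k (-(u x + u (σ x)) + j) = b' - b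
      rw [third (u x + j) (u (σ x) + j) (fun h => hu x (add_right_cancel h)) (W k) (hC.zs k),
        third']
    · intro k
      refine ((hL m n V σ (fun _ => z k) (by omega) hV hσ).2.2.1 x b b').trans ?_
      show z k + z k = b' - b ↔ 2 * z k = b' - b
      rw [two_mul]
    · intro h
      exact h0.1 (hC.c2 _ (fun k j => h (Sum.inl (k, j))) (fun k => h (Sum.inr k)))
    · rintro ⟨⟨k, j⟩ | k, he⟩
      · exact h0.2 (fun tk ht => hC.c2W k j tk (by
          have he' : -W k j = b' - b := he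
          rw [he']; exact ht))
      · exact h0.2 (fun tk ht => hC.c2z k tk (by
          have he' : 2 * z k = b' - b := he
          rw [he']; exact ht))
  have hsymm : ∀ p q, (∃! c, Nb (τ c) p q) → ∃! c, Nb (τ c) q p := by
    rintro p q ⟨c, hc, hu'⟩
    exact ⟨c, (nb_symm _ _ _).1 hc, fun c' hc' => hu' c' ((nb_symm _ _ _).1 hc')⟩
  refine ⟨_, inferInstance, τ, hcyc, ?_⟩
  rintro ⟨x, b⟩ ⟨y, b'⟩ hpq
  refine ⟨?_, ?_⟩
  · rintro (h | h | h | h | h)
    · have h' : x = y := h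
      subst h'
      exact key0 x b b' (fun hb' => hpq (by rw [hb']))
    · have h' : y = σ x := h
      subst h'
      exact key1 x b b'
    · have h' : y = σ (σ x) := h
      subst h'
      exact key2 x b b'
    · have h' : x = σ y := h
      subst h'
      exact hsymm _ _ (key1 y b' b)
    · have h' : x = σ (σ y) := h
      subst h'
      exact hsymm _ _ (key2 y b' b)
  · intro h1 h2
    have h1' : x ≠ y := h1
    have h2' : ¬ Nb σ x y := h2
    rintro (c | ⟨k, j⟩ | k)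
    · refine hB2 x y b b' ?_ c
      intro δ hδ hy
      rw [abs_le] at hδ
      have h3 : δ = -2 ∨ δ = -1 ∨ δ = 0 ∨ δ = 1 ∨ δ = 2 := by omega
      rcases h3 with rfl | rfl | rfl | rfl | rfl
      · apply h2'
        right; right; right
        rw [hy, zpow_neg, zpow_two]
        simp [Equiv.Perm.mul_apply]
      · apply h2'
        right; right; left
        rw [hy, zpow_neg, zpow_one]
        simp
      · exact h1' (by rw [hy, zpow_zero]; rfl)
      · apply h2'
        left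
        rw [hy, zpow_one]
      · apply h2'
        right; left
        rw [hy, zpow_two]; rfl
    · exact (hL m n V σ (fun v => W k (u v + j)) (by omega) hV hσ).2.2.2 x y b b' h2'
    · exact (hL m n V σ (fun _ => z k) (by omega) hV hσ).2.2.2 x y b b' h2'

end Pool.Agent.K6.H2.HS
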