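import Pool.Agent.K6.H2.HS.Stm

/-!
# Piece WALK: closed walks on the triangle
-/

set_option autoImplicit false

namespace Pool.Agent.K6.H2.HS

open Finset

namespace WALK

/-- the letter number `t` of the word with the initial part of length `c` (`c` is 6, 8 or 10) -/
def L (c t : ℕ) : ℕ :=
  if t < c then (if t % 2 = 0 then 0 else if t = c - 1 ∨ (c = 10 ∧ t = 7) then 2 else 1)
  else (t - c) % 3

theorem L_lt (c t : ℕ) : L c t < 3 := by
  unfold L
  split_ifs <;> omega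

theorem L_ne (c k v : ℕ) (hc : c = 6 ∨ c = 8 ∨ c = 10) (hv : v < c + 3 * k) :
    L c ((v + 1) % (c + 3 * k)) ≠ L c v := by
  rcases lt_or_ge (v + 1) (c + 3 * k) with h | h
  · rw [Nat.mod_eq_of_lt h]
    unfold L
    split_ifs <;> omega
  · have h2 : v + 1 = c + 3 * k := by omega
    rw [h2, Nat.mod_self]
    unfold L
    split_ifs <;> omega

theorem cast_ne (a b : ℕ) (ha : a < 3) (hb : b < 3) (h : a ≠ b) :
    ((a : ℕ) : ZMod 3) ≠ ((b : ℕ) : ZMod 3) := by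
  rw [ne_eq, ZMod.natCast_eq_natCast_iff']
  omega

theorem sum_val {M : Type*} [AddCommMonoid M] (n : ℕ) [NeZero n] (f : ℕ → M) :
    ∑ t : ZMod n, f t.val = ∑ t ∈ range n, f t := by
  obtain ⟨k, rfl⟩ : ∃ k, n = k + 1 := ⟨n - 1, by have := NeZero.ne n; omega⟩
  exact Fin.sum_univ_eq_sum_range f (k + 1)

theorem L_step (c k : ℕ) : L c (c + 3 * k) = 0 ∧ L c (c + 3 * k + 1) = 1 ∧
    L c (c + 3 * k + 2) = 2 := by
  unfold L
  refine ⟨?_, ?_, ?_⟩ <;> split_ifs <;> omega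

theorem sum_step {m : ℕ} (w : ZMod 3 → ZMod m) (hw : w 0 + w 1 + w 2 = 0) (c : ℕ) (S : ZMod m)
    (h0 : ∑ t ∈ range c, w ((L c t : ℕ) : ZMod 3) = S) (k : ℕ) :
    ∑ t ∈ range (c + 3 * k), w ((L c t : ℕ) : ZMod 3) = S := by
  induction k with
  | zero => simpa using h0
  | succ k ih =>
    rw [show c + 3 * (k + 1) = c + 3 * k + 1 + 1 + 1 by ring, sum_range_succ, sum_range_succ,
      sum_range_succ, ih]
    obtain ⟨h1, h2, h3⟩ := L_step c k
    rw [h1, h2, show c + 3 * k + 1 + 1 = c + 3 * k + 2 by ring, h3]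
    push_cast
    linear_combination hw

theorem base6 {m : ℕ} (w : ZMod 3 → ZMod m) (hw : w 0 + w 1 + w 2 = 0) :
    ∑ t ∈ range 6, w ((L 6 t : ℕ) : ZMod 3) = 2 * w 0 + w 1 := by
  have : ∀ t < 6, L 6 t = [0, 1, 0, 1, 0, 2].getD t 0 := by decide
  simp only [sum_range_succ, sum_range_zero, this 0 (by norm_num), this 1 (by norm_num),
    this 2 (by norm_num), this 3 (by norm_num), this 4 (by norm_num), this 5 (by norm_num)]
  simp only [List.getD_cons_zero, List.getD_cons_succ]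
  push_cast
  linear_combination hw

theorem base8 {m : ℕ} (w : ZMod 3 → ZMod m) (hw : w 0 + w 1 + w 2 = 0) :
    ∑ t ∈ range 8, w ((L 8 t : ℕ) : ZMod 3) = 3 * w 0 + 2 * w 1 := by
  have : ∀ t < 8, L 8 t = [0, 1, 0, 1, 0, 1, 0, 2].getD t 0 := by decide
  simp only [sum_range_succ, sum_range_zero, this 0 (by norm_num), this 1 (by norm_num),
    this 2 (by norm_num), this 3 (by norm_num), this 4 (by norm_num), this 5 (by norm_num),
    this 6 (by norm_num), this 7 (by norm_num)]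
  simp only [List.getD_cons_zero, List.getD_cons_succ]
  push_cast
  linear_combination hw

theorem base10 {m : ℕ} (w : ZMod 3 → ZMod m) (hw : w 0 + w 1 + w 2 = 0) :
    ∑ t ∈ range 10, w ((L 10 t : ℕ) : ZMod 3) = 3 * w 0 + w 1 := by
  have : ∀ t < 10, L 10 t = [0, 1, 0, 1, 0, 1, 0, 2, 0, 2].getD t 0 := by decide
  simp only [sum_range_succ, sum_range_zero, this 0 (by norm_num), this 1 (by norm_num),
    this 2 (by norm_num), this 3 (by norm_num), this 4 (by norm_num), this 5 (by norm_num),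
    this 6 (by norm_num), this 7 (by norm_num), this 8 (by norm_num), this 9 (by norm_num)]
  simp only [List.getD_cons_zero, List.getD_cons_succ]
  push_cast
  linear_combination 2 * hw

theorem main (h : S_CYC) (c k : ℕ) (hc : c = 6 ∨ c = 8 ∨ c = 10) (V : Type) [Fintype V]
    (σ : Equiv.Perm V) (hV : Fintype.card V = c + 3 * k) (hσ : Cyc σ) (α β : ℤ)
    (hs : ∀ (m : ℕ) (w : ZMod 3 → ZMod m), w 0 + w 1 + w 2 = 0 →
      ∑ t ∈ range c, w ((L c t : ℕ) : ZMod 3) = (α : ZMod m) * w 0 + (β : ZMod m) * w 1) :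
    ∃ u : V → ZMod 3, (∀ v, u (σ v) ≠ u v) ∧
      ∀ (m : ℕ) (w : ZMod 3 → ZMod m), w 0 + w 1 + w 2 = 0 →
        ∑ v, w (u v) = (α : ZMod m) * w 0 + (β : ZMod m) * w 1 := by
  have hn : 0 < c + 3 * k := by omega
  have : NeZero (c + 3 * k) := ⟨by omega⟩
  obtain ⟨e, he⟩ := h (c + 3 * k) V σ hn hV hσ
  refine ⟨fun v => ((L c (e.symm v).val : ℕ) : ZMod 3), ?_, ?_⟩
  · intro v
    obtain ⟨t, rfl⟩ := e.surjective v
    simp only [← he, Equiv.symm_apply_apply]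
    refine cast_ne _ _ (L_lt _ _) (L_lt _ _) ?_
    have h1 : (t + 1).val = (t.val + 1) % (c + 3 * k) := by
      have h := ZMod.val_add t ((1 : ℕ) : ZMod (c + 3 * k))
      rw [ZMod.val_natCast, Nat.mod_eq_of_lt (by omega : 1 < c + 3 * k)] at h
      simpa using h
    rw [h1]
    exact L_ne c k _ hc (ZMod.val_lt t)
  · intro m w hw
    rw [← Equiv.sum_comp e]
    simp only [Equiv.symm_apply_apply]
    rw [sum_val (c + 3 * k) (fun t => w ((L c t : ℕ) : ZMod 3))]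
    exact sum_step w hw c _ (hs m w hw) k

end WALK

theorem P_WALK (h : S_CYC) : S_WALK := by
  intro n V _ σ hn hV hσ
  have h3 : n % 3 = 0 ∨ n % 3 = 1 ∨ n % 3 = 2 := by omega
  rcases h3 with h3 | h3 | h3
  · obtain ⟨k, rfl⟩ : ∃ k, n = 6 + 3 * k := ⟨(n - 6) / 3, by omega⟩
    obtain ⟨u, h1, h2⟩ := WALK.main h 6 k (by omega) V σ hV hσ 2 1
      (fun m w hw => by rw [WALK.base6 w hw]; push_cast; ring)
    exact ⟨u, 2, 1, h1, Or.inl ⟨rfl, rfl⟩, h2⟩
  · obtain ⟨k, rfl⟩ : ∃ k, n = 10 + 3 * k := ⟨(n - 10) / 3, by omega⟩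
    obtain ⟨u, h1, h2⟩ := WALK.main h 10 k (by omega) V σ hV hσ 3 1
      (fun m w hw => by rw [WALK.base10 w hw]; push_cast; ring)
    exact ⟨u, 3, 1, h1, Or.inr (Or.inl ⟨rfl, rfl⟩), h2⟩
  · obtain ⟨k, rfl⟩ : ∃ k, n = 8 + 3 * k := ⟨(n - 8) / 3, by omega⟩
    obtain ⟨u, h1, h2⟩ := WALK.main h 8 k (by omega) V σ hV hσ 3 2
      (fun m w hw => by rw [WALK.base8 w hw]; push_cast; ring)
    exact ⟨u, 3, 2, h1, Or.inr (Or.inr ⟨rfl, rfl⟩), h2⟩

end Pool.Agent.K6.H2.HS
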