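import Pool.Agent.K6.H2.HS.P_FWD
import Pool.Agent.K6.H2.HS.P_BWD
import Pool.Agent.K6.H2.HS.P_CYC
import Pool.Agent.K6.H2.HS.P_SKEW
import Pool.Agent.K6.H2.HS.P_COL
import Pool.Agent.K6.H2.HS.P_BLOW
import Pool.Agent.K6.H2.HS.P_SKB
import Pool.Agent.K6.H2.HS.P_COVB
import Pool.Agent.K6.H2.HS.P_COVL
import Pool.Agent.K6.H2.HS.P_WALK
import Pool.Agent.K6.H2.HS.P_SPEC
import Pool.Agent.K6.H2.HS.P_MUL
import Pool.Agent.K6.H2.HS.P_PRM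

namespace Pool.Agent.K6.H2.HS

theorem mul_thm : S_MUL :=
  P_MUL P_FWD (P_BWD P_CYC) (P_BLOW (P_SKEW P_CYC) P_CYC P_COVL P_COL)
    (P_SPEC (P_SKEW P_CYC) P_SKB P_COVB P_COVL (P_WALK P_CYC))

end Pool.Agent.K6.H2.HS
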