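import Pool.Agent.K6.H2.HS.Stm

/-! Piece FWD for MP_eaf1c8_co (helper75): from graph decompositions to permutations. -/

namespace Pool.Agent.K6.H2.HS

namespace FWD

/-- The rotation along the square of a cycle. -/
noncomputable def rot {n : ℕ} (e : Fin n ≃ ZMod n) : Equiv.Perm (Fin n) where
  toFun x := e.symm (e x + 1)
  invFun x := e.symm (e x - 1)
  left_inv x := by simp
  right_inv x := by simp

theorem e_rot {n : ℕ} (e : Fin n ≃ ZMod n) (x : Fin n) : e (rot e x) = e x + 1 := by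
  simp [rot]

theorem rot_pow {n : ℕ} (e : Fin n ≃ ZMod n) (k : ℕ) (x : Fin n) :
    e ((rot e ^ k) x) = e x + k := by
  induction k with
  | zero => simp
  | succ k ih => rw [pow_succ', Equiv.Perm.mul_apply, e_rot, ih]; push_cast; ring

theorem cyc {n : ℕ} [NeZero n] (e : Fin n ≃ ZMod n) : Cyc (rot e) := by
  intro x y
  refine ⟨(e y - e x).val, ?_⟩
  apply e.injective
  rw [rot_pow, ZMod.natCast_zmod_val]
  ring

theorem nb {n : ℕ} (G : SimpleGraph (Fin n)) (f : G ≃g sqCycle n) (x y : Fin n) (hxy : x ≠ y) :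
    Nb (rot f.toEquiv) x y ↔ G.Adj x y := by
  rw [← f.map_rel_iff]
  have h0 : f x ≠ f y := fun h => hxy (f.injective h)
  have k1 : ∀ a b : Fin n, b = rot f.toEquiv a ↔ f b = f a + 1 := by
    intro a b
    constructor
    · intro h; rw [h]; exact e_rot f.toEquiv a
    · intro h; apply f.injective; rw [h]; exact (e_rot f.toEquiv a).symm
  have k2 : ∀ a b : Fin n, b = rot f.toEquiv (rot f.toEquiv a) ↔ f b = f a + 2 := by
    intro a b
    rw [k1]
    have : f (rot f.toEquiv a) = f a + 1 := e_rot f.toEquiv a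
    rw [this, add_assoc]
    norm_num
  unfold Nb
  rw [k1, k2, k1, k2]
  show _ ↔ (f x ≠ f y ∧ (f x - f y = 1 ∨ f x - f y = -1 ∨ f x - f y = 2 ∨ f x - f y = -2))
  constructor
  · rintro (h | h | h | h)
    · exact ⟨h0, Or.inr (Or.inl (by rw [h]; ring))⟩
    · exact ⟨h0, Or.inr (Or.inr (Or.inr (by rw [h]; ring)))⟩
    · exact ⟨h0, Or.inl (by rw [h]; ring)⟩
    · exact ⟨h0, Or.inr (Or.inr (Or.inl (by rw [h]; ring)))⟩
  · rintro ⟨-, h | h | h | h⟩
    · exact Or.inr (Or.inr (Or.inl (by linear_combination h)))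
    · exact Or.inl (by linear_combination -h)
    · exact Or.inr (Or.inr (Or.inr (by linear_combination h)))
    · exact Or.inr (Or.inl (by linear_combination -h))

end FWD

open FWD in
/-- PIECE FWD. -/
theorem P_FWD : S_FWD := by
  rintro n hn ⟨k, G, h1, h2⟩
  have : NeZero n := ⟨by omega⟩
  refine ⟨Fin k, inferInstance, fun j => rot (h1 j).some.toEquiv, ?_, ?_⟩
  · intro j
    exact cyc _
  · intro x y hxy
    obtain ⟨j, hj, hu⟩ := h2 x y hxy
    refine ⟨j, (nb (G j) _ x y hxy).2 hj, ?_⟩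
    intro j' hj'
    exact hu j' ((nb (G j') _ x y hxy).1 hj')

end Pool.Agent.K6.H2.HS
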