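import Pool.Agent.K6.H2.HS.Stm

/-!
# Piece PRM (helper84): the prime case
-/

set_option autoImplicit false

namespace Pool.Agent.K6.H2.HS

namespace PRM

/-- exactly one of `x`, `-x` is in the lower half -/
theorem half {p : ℕ} [NeZero p] (hp : Odd p) (x : ZMod p) (hx : x ≠ 0) :
    (2 * x.val < p ↔ ¬ 2 * (-x).val < p) := by
  have h1 : (-x).val = p - x.val := by rw [ZMod.neg_val, if_neg hx]
  have h2 : x.val < p := ZMod.val_lt x
  obtain ⟨k, hk⟩ := hp
  omega

theorem key (p : ℕ) [Fact p.Prime] (hp : Odd p) (two : (ZMod p)ˣ) (ho : 4 ∣ orderOf two) :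
    ∃ R : Set (ZMod p)ˣ, ∀ u : (ZMod p)ˣ, ∃! c : (ZMod p)ˣ, c ∈ R ∧
      (u = c ∨ u = -c ∨ u = two * c ∨ u = -(two * c)) := by
  classical
  have hpos : 0 < orderOf two := orderOf_pos two
  -- `-1` is an even power of `two`
  obtain ⟨m, hm⟩ : ∃ m : ℤ, (-1 : (ZMod p)ˣ) = two ^ (2 * m) := by
    obtain ⟨q, hq⟩ := ho
    have hq0 : 0 < q := by
      rcases Nat.eq_zero_or_pos q with h | h
      · rw [h] at hq; omega
      · exact h
    have h1 : (two ^ (2 * q)) ^ 2 = 1 := by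
      rw [← pow_mul]
      have : 2 * q * 2 = orderOf two := by omega
      rw [this, pow_orderOf_eq_one]
    have h2 : two ^ (2 * q) ≠ 1 := by
      intro h
      have := orderOf_dvd_of_pow_eq_one h
      have := Nat.le_of_dvd (by omega) this
      omega
    have h3 : ((two ^ (2 * q) : (ZMod p)ˣ) : ZMod p) ^ 2 = 1 := by
      have := congrArg (fun u : (ZMod p)ˣ => (u : ZMod p)) h1
      simpa using this
    have h3' : ((two ^ (2 * q) : (ZMod p)ˣ) : ZMod p) = 1 ∨
        ((two ^ (2 * q) : (ZMod p)ˣ) : ZMod p) = -1 := by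
      have h5 : (((two ^ (2 * q) : (ZMod p)ˣ) : ZMod p) - 1) *
          (((two ^ (2 * q) : (ZMod p)ˣ) : ZMod p) + 1) = 0 := by linear_combination h3
      rcases mul_eq_zero.mp h5 with h | h
      · exact Or.inl (sub_eq_zero.mp h)
      · exact Or.inr (eq_neg_of_add_eq_zero_left h)
    rcases h3' with h4 | h4
    · exact absurd (Units.ext (by simpa using h4)) h2
    · refine ⟨q, Units.ext ?_⟩
      rw [show (2 * (q : ℤ)) = ((2 * q : ℕ) : ℤ) by push_cast; ring, zpow_natCast, h4]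
      simp
  let Hs : Subgroup (ZMod p)ˣ := Subgroup.zpowers two
  let rep : (ZMod p)ˣ → (ZMod p)ˣ := fun u => (QuotientGroup.mk (s := Hs) u).out
  have hrep : ∀ u, ∃ i : ℤ, (rep u)⁻¹ * u = two ^ i := by
    intro u
    have h1 : (QuotientGroup.mk (s := Hs) (rep u)) = QuotientGroup.mk (s := Hs) u :=
      Quotient.out_eq' _
    have h2 : (rep u)⁻¹ * u ∈ Hs := QuotientGroup.eq.mp h1
    obtain ⟨i, hi⟩ := Subgroup.mem_zpowers_iff.mp h2
    exact ⟨i, hi.symm⟩
  choose i hi using hrep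
  have hrepeq : ∀ u (j : ℤ), rep (two ^ j * u) = rep u := by
    intro u j
    have h1 : QuotientGroup.mk (s := Hs) (two ^ j * u) = QuotientGroup.mk (s := Hs) u := by
      refine QuotientGroup.eq.mpr ?_
      refine Subgroup.mem_zpowers_iff.mpr ⟨-j, ?_⟩
      rw [zpow_neg, mul_inv_rev, mul_comm u⁻¹, mul_assoc, inv_mul_cancel, mul_one]
    show (QuotientGroup.mk (s := Hs) (two ^ j * u)).out = (QuotientGroup.mk (s := Hs) u).out
    rw [h1]
  have hpar : ∀ a b : ℤ, two ^ a = two ^ b → (a - b) % 2 = 0 := by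
    intro a b h
    have h1 := zpow_eq_zpow_iff_modEq.mp h
    have h2 := h1.symm.dvd
    obtain ⟨q, hq⟩ := ho
    obtain ⟨t, ht⟩ := h2
    rw [hq] at ht
    push_cast at ht
    have : a - b = 2 * (2 * q * t) := by rw [ht]; ring
    omega
  have hshift : ∀ u (j : ℤ), (i (two ^ j * u) - (i u + j)) % 2 = 0 := by
    intro u j
    apply hpar
    rw [← hi, hrepeq, zpow_add, ← hi u]
    rw [mul_comm (two ^ j) u, mul_assoc]
  let T : (ZMod p)ˣ → Prop := fun u => i u % 2 = 0
  have hT2 : ∀ u, (T (two * u) ↔ ¬ T u) := by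
    intro u
    have h1 := hshift u 1
    rw [zpow_one] at h1
    simp only [T]
    omega
  have hTn : ∀ u, (T (-u) ↔ T u) := by
    intro u
    have h1 := hshift u (2 * m)
    rw [← hm, neg_one_mul] at h1
    simp only [T]
    omega
  have hne : ∀ u : (ZMod p)ˣ, (u : ZMod p) ≠ 0 := fun u => u.ne_zero
  have hhalf : ∀ u : (ZMod p)ˣ, (2 * (u : ZMod p).val < p ↔ ¬ 2 * ((-u : (ZMod p)ˣ) : ZMod p).val < p) := by
    intro u
    have := half hp (u : ZMod p) (hne u)
    simpa using this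
  -- one of `u`, `-u`
  have hone : ∀ u, T u → ∃ c, (T c ∧ 2 * (c : ZMod p).val < p) ∧ (u = c ∨ u = -c) := by
    intro u hu
    by_cases h : 2 * (u : ZMod p).val < p
    · exact ⟨u, ⟨hu, h⟩, Or.inl rfl⟩
    · refine ⟨-u, ⟨(hTn u).mpr hu, ?_⟩, Or.inr (neg_neg u).symm⟩
      by_contra h2
      exact h ((hhalf u).mpr h2)
  have huniq : ∀ c c' : (ZMod p)ˣ, 2 * (c : ZMod p).val < p → 2 * (c' : ZMod p).val < p →
      (c' = c ∨ c' = -c) → c' = c := by
    intro c c' h h' hcc
    rcases hcc with h1 | h1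
    · exact h1
    · exfalso
      rw [h1] at h'
      exact ((hhalf c).mp h) h'
  have hkind : ∀ u c, T c → (u = c ∨ u = -c ∨ u = two * c ∨ u = -(two * c)) →
      (T u ∧ (u = c ∨ u = -c)) ∨ (¬ T u ∧ (u = two * c ∨ u = -(two * c))) := by
    intro u c hc h
    rcases h with h | h | h | h
    · exact Or.inl ⟨by rw [h]; exact hc, Or.inl h⟩
    · exact Or.inl ⟨by rw [h]; exact (hTn c).mpr hc, Or.inr h⟩
    · refine Or.inr ⟨?_, Or.inl h⟩
      rw [h, hT2]
      exact not_not.mpr hc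
    · refine Or.inr ⟨?_, Or.inr h⟩
      rw [h, hTn, hT2]
      exact not_not.mpr hc
  refine ⟨{c | T c ∧ 2 * (c : ZMod p).val < p}, fun u => ?_⟩
  have huni : ∀ c c' : (ZMod p)ˣ, (T c ∧ 2 * (c : ZMod p).val < p) →
      (T c' ∧ 2 * (c' : ZMod p).val < p) →
      (u = c ∨ u = -c ∨ u = two * c ∨ u = -(two * c)) →
      (u = c' ∨ u = -c' ∨ u = two * c' ∨ u = -(two * c')) → c' = c := by
    intro c c' hc hc' h h'
    apply huniq c c' hc.2 hc'.2
    rcases hkind u c hc.1 h with ⟨h1, h2⟩ | ⟨h1, h2⟩ <;>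
    rcases hkind u c' hc'.1 h' with ⟨h1', h2'⟩ | ⟨h1', h2'⟩
    · rcases h2 with h2 | h2 <;> rcases h2' with h2' | h2'
      · left; rw [← h2', h2]
      · right
        have h3 : c' = -u := by rw [h2', neg_neg]
        rw [h3, h2]
      · right
        rw [← h2', h2]
      · left
        have h3 : c' = -u := by rw [h2', neg_neg]
        rw [h3, h2, neg_neg]
    · exact absurd h1 h1'
    · exact absurd h1' h1
    · have e1 : ∀ a b : (ZMod p)ˣ, two * a = two * b → a = b := fun a b h => mul_left_cancel h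
      rcases h2 with h2 | h2 <;> rcases h2' with h2' | h2'
      · left
        exact e1 _ _ (by rw [← h2', h2])
      · right
        apply e1
        rw [mul_neg, ← h2, h2', neg_neg]
      · right
        apply e1
        rw [mul_neg, ← h2', h2]
      · left
        apply e1
        exact neg_injective (by rw [← h2', h2])
  by_cases hu : T u
  · obtain ⟨c, hc, h⟩ := hone u hu
    have h' : u = c ∨ u = -c ∨ u = two * c ∨ u = -(two * c) := by tauto
    exact ⟨c, ⟨hc, h'⟩, fun c' hc' => huni c c' hc hc'.1 h' hc'.2⟩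
  · have hv : T (two⁻¹ * u) := by
      by_contra h
      have := (hT2 (two⁻¹ * u)).mpr h
      rw [mul_inv_cancel_left] at this
      exact hu this
    obtain ⟨c, hc, h⟩ := hone _ hv
    have h' : u = c ∨ u = -c ∨ u = two * c ∨ u = -(two * c) := by
      rcases h with h | h
      · right; right; left
        rw [← h, mul_inv_cancel_left]
      · right; right; right
        rw [← mul_neg, ← h, mul_inv_cancel_left]
    exact ⟨c, ⟨hc, h'⟩, fun c' hc' => huni c c' hc hc'.1 h' hc'.2⟩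

end PRM

theorem P_PRM : S_PRM := by
  classical
  intro p hp h5 ho
  haveI : Fact p.Prime := ⟨hp⟩
  have hodd : Odd p := hp.odd_of_ne_two (by omega)
  have h2 : (2 : ZMod p) ≠ 0 := by
    intro h
    have h1 : ((2 : ℕ) : ZMod p) = 0 := by exact_mod_cast h
    rw [ZMod.natCast_eq_zero_iff] at h1
    have := Nat.le_of_dvd (by norm_num) h1
    omega
  let two : (ZMod p)ˣ := Units.mk0 2 h2
  have ho' : 4 ∣ orderOf two := by
    rw [← orderOf_units]
    exact ho
  obtain ⟨R, hR⟩ := PRM.key p hodd two ho'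
  obtain ⟨k, ⟨f⟩⟩ := Finite.exists_equiv_fin R
  let φ : Fin p ≃ ZMod p := (Fintype.equivFinOfCardEq (ZMod.card p)).symm
  let g : Fin k → (Fin p ≃ ZMod p) := fun j =>
    φ.trans (Units.mulLeft ((f.symm j : R) : (ZMod p)ˣ)⁻¹)
  have hg : ∀ j x, g j x = (((f.symm j : R) : (ZMod p)ˣ)⁻¹ : (ZMod p)ˣ) * φ x := fun j x => rfl
  refine ⟨k, fun j => (sqCycle p).comap (g j), fun j => ⟨SimpleGraph.Iso.comap (g j) _⟩, ?_⟩
  intro x y hxy
  have hd : φ x - φ y ≠ 0 := sub_ne_zero.mpr (φ.injective.ne hxy)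
  let u : (ZMod p)ˣ := Units.mk0 _ hd
  have hu : (u : ZMod p) = φ x - φ y := rfl
  have hadj : ∀ j, ((sqCycle p).comap (g j)).Adj x y ↔
      (u = ((f.symm j : R) : (ZMod p)ˣ) ∨ u = -((f.symm j : R) : (ZMod p)ˣ) ∨
        u = two * ((f.symm j : R) : (ZMod p)ˣ) ∨ u = -(two * ((f.symm j : R) : (ZMod p)ˣ))) := by
    intro j
    set c : (ZMod p)ˣ := ((f.symm j : R) : (ZMod p)ˣ) with hc
    have h1 : g j x - g j y = ((c⁻¹ * u : (ZMod p)ˣ) : ZMod p) := by
      rw [hg, hg, ← mul_sub, ← hu, Units.val_mul]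
    have h3 : g j x ≠ g j y := (g j).injective.ne hxy
    have h4 : ∀ v : (ZMod p)ˣ, (g j x - g j y = (v : ZMod p)) ↔ u = c * v := by
      intro v
      rw [h1, Units.val_inj]
      exact inv_mul_eq_iff_eq_mul
    have e1 : ((1 : (ZMod p)ˣ) : ZMod p) = 1 := rfl
    have e2 : ((-1 : (ZMod p)ˣ) : ZMod p) = -1 := by simp
    have e3 : ((two : (ZMod p)ˣ) : ZMod p) = 2 := rfl
    have e4 : ((-two : (ZMod p)ˣ) : ZMod p) = -2 := by simp [two]
    show (g j x ≠ g j y ∧ (g j x - g j y = 1 ∨ g j x - g j y = -1 ∨ g j x - g j y = 2 ∨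
      g j x - g j y = -2)) ↔ _
    have f1 : g j x - g j y = 1 ↔ u = c := by
      have := h4 1
      rwa [e1, mul_one] at this
    have f2 : g j x - g j y = -1 ↔ u = -c := by
      have := h4 (-1)
      rwa [e2, mul_neg_one] at this
    have f3 : g j x - g j y = 2 ↔ u = two * c := by
      have := h4 two
      rwa [e3, mul_comm c two] at this
    have f4 : g j x - g j y = -2 ↔ u = -(two * c) := by
      have := h4 (-two)
      rwa [e4, mul_neg, mul_comm c two] at this
    rw [f1, f2, f3, f4]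
    exact ⟨fun h => h.2, fun h => ⟨h3, h⟩⟩
  obtain ⟨c, ⟨hcR, hc⟩, huniq⟩ := hR u
  refine ⟨f ⟨c, hcR⟩, ?_, ?_⟩
  · show ((sqCycle p).comap (g (f ⟨c, hcR⟩))).Adj x y
    rw [hadj, Equiv.symm_apply_apply]
    exact hc
  · intro j hj
    have hj' : ((sqCycle p).comap (g j)).Adj x y := hj
    rw [hadj] at hj'
    have h1 := huniq _ ⟨(f.symm j).2, hj'⟩
    have h3 : f.symm j = ⟨c, hcR⟩ := Subtype.ext h1
    rw [← h3, Equiv.apply_symm_apply]

end Pool.Agent.K6.H2.HS
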